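import Pool.Agent.Lib.MP_640417_ag.Ctl.Defs
import Pool.Agent.Lib.MP_640417_ag.Gn.DefM

/-!
# MP_640417_ag, Uni: good and detecting elements, self-dual weights allowed

The Lefschetz Lie algebra may have no invertible element (orthogonal factors of odd dimension): then a weight can be
its own dual.
-/

set_option autoImplicit false

namespace Pool.Agent.Lib.MP_640417_ag.Uni

open Matrix Module TensorProduct Pool.Agent.Lib.MP_640417_ag Pool.Agent.Lib.MP_640417_ag.Frob
  Pool.Agent.Lib.MP_640417_ag.Four Pool.Agent.Lib.MP_640417_ag.Ty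
  Pool.Agent.Lib.MP_640417_ag.Glob Pool.Agent.Lib.MP_640417_ag.Ctl Pool.Agent.Lib.MP_640417_ag.Gn

section

variable {Γ : Type} [Group Γ] [TopologicalSpace Γ] {F : Type} [Field F]
  [TopologicalSpace F] {V : Type} [AddCommGroup V] [Module F V]

/-- `γ` commutes with the commutant, all weights which are not their own duals are isolated, and an element of the
Lefschetz Lie algebra (over `K`) which vanishes on all their weight spaces is zero. -/
def Good1 (ρ : H1Rep Γ F V) (γ : Γ) : Prop :=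
  (∀ c, CommF ρ c → c * ρ.T γ = ρ.T γ * c) ∧
  (∀ z κ, Wt ρ γ z κ ≠ ⊥ → ¬ Dual ρ γ z κ z κ → Isolated ρ γ z κ) ∧
  ∀ X ∈ Submodule.span (AlgebraicClosure F)
      {X : Module.End (AlgebraicClosure F) (AlgebraicClosure F ⊗[F] V) |
        ∃ Y, Lefschetz ρ Y ∧ X = Y.baseChange (AlgebraicClosure F)},
    (∀ z κ, ¬ Dual ρ γ z κ z κ → ∀ y ∈ Wt ρ γ z κ, X y = 0) → X = 0

/-- `γ` is semisimple and commutes with the commutant, and an element of the commutant over `K` which vanishes on all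
isolated weight spaces annihilates the Lefschetz Lie algebra. -/
def Detects1 (ρ : H1Rep Γ F V) (γ : Γ) : Prop :=
  (∀ c, CommF ρ c → c * ρ.T γ = ρ.T γ * c) ∧ (ρ.T γ).IsSemisimple ∧
  ∀ c, CommK ρ c → (∀ z κ, Isolated ρ γ z κ → ∀ y ∈ Wt ρ γ z κ, c y = 0) →
    ∀ X, Lefschetz ρ X → c * X.baseChange (AlgebraicClosure F) = 0

end

section

variable {F : Type} [NontriviallyNormedField F] {I : Type} [Fintype I] [DecidableEq I]
  {Γ : Type} [Group Γ] [TopologicalSpace Γ] (ρ : MRep Γ F I) (K : Type) [Field K] [Algebra F K]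

/-- the Lefschetz Lie algebra in coordinates -/
def LefM (X : Matrix I I F) : Prop := X ∈ spJ ρ.J ∧ ∀ b, ρ.InC b → X * b = b * X

/-- `Good1` in coordinates -/
def GoodM1 (γ : Γ) : Prop :=
  (∀ c, ρ.InC c → ρ.M γ * c = c * ρ.M γ) ∧
  (∀ z κ, WtM ρ K γ z κ ≠ ⊥ → ¬ DualM ρ K γ z κ z κ → IsolatedM ρ K γ z κ) ∧
  ∀ X ∈ Submodule.span K {X : Matrix I I K | ∃ Y, LefM ρ Y ∧ X = Y.map (algebraMap F K)},
    (∀ z κ, ¬ DualM ρ K γ z κ z κ → ∀ y ∈ WtM ρ K γ z κ, X *ᵥ y = 0) → X = 0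

/-- `Detects1` in coordinates -/
def DetectsM1 (γ : Γ) : Prop :=
  (∀ c, ρ.InC c → ρ.M γ * c = c * ρ.M γ) ∧
  Module.End.IsSemisimple (Matrix.toLin' ((ρ.M γ).map (algebraMap F K))) ∧
  ∀ c, InCK ρ K c → (∀ z κ, IsolatedM ρ K γ z κ → ∀ y ∈ WtM ρ K γ z κ, c *ᵥ y = 0) →
    ∀ X, LefM ρ X → c * X.map (algebraMap F K) = 0

end

section

variable {K : Type} [Field K] {I : Type} [Fintype I] [DecidableEq I]

/-- the generalized kernel of `X` on the kernel of `c` -/
noncomputable def N1 (c X : Matrix I I K) : Submodule K (I → K) :=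
  Module.End.maxGenEigenspace (Matrix.toLin' X) 0 ⊓ LinearMap.ker (Matrix.toLin' c)

/-- the generalized eigenspace of `g ^ 2` for `μ` on the kernel of `c` -/
noncomputable def G1 (c g : Matrix I I K) (μ : K) : Submodule K (I → K) :=
  Module.End.maxGenEigenspace (Matrix.toLin' (g ^ 2)) μ ⊓ LinearMap.ker (Matrix.toLin' c)

end

end Pool.Agent.Lib.MP_640417_ag.Uni
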