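import Pool.Agent.Lib.MP_640417_ag.Dt.AlgA

/-!
# MP_640417_ag, Uni, module CenQ (120 lines): a central symmetric idempotent

Let `L = {b ∈ C | b ε_s = 0 for all s}`. It is closed under multiplication with elements of `C` on both sides (`b ε_s = ε_s b`) and under
`adj J`: `(adj J b) ε_s = adj J (adj J (ε_s) b) = adj J (b ε_(σ s)) = 0` (`adj_mul`, `adj_adj`). Let
`U = {u | ε_s t u = 0 for all s and all t with Cm C t}`. It is stable under `H` (for `X ∈ H` and `Cm C t` one has `Cm C (t X)`, by `L.cm`); let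
`q ∈ C` be the projection onto `U` (`L.proj`). `ε_s q v = 0` for all `v` (take `t = 1`), so `q ε_s = ε_s q = 0` and `q ∈ L`. For `b ∈ L` and
all `v`: `b v ∈ U` (`ε_s t b v = b ε_s t v = 0`), so `q b = b`. `q' = adj J q ∈ L`, so `q q' = q'`; apply `adj J`: `q q' = q`. So `q' = q`.
For `b ∈ L`: `q (adj J b) = adj J b`, apply `adj J`: `b q = b`. For `b ∈ C`: `b q ∈ L` and `q b ∈ L`, so `q (b q) = b q` and
`(q b) q = q b`, so `b q = q b`.
-/

set_option autoImplicit false

namespace Pool.Agent.Lib.MP_640417_ag.Uni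

open Matrix Pool.Agent.Lib.MP_640417_ag.Gn Pool.Agent.Lib.MP_640417_ag.Dt

variable {K : Type} [Field K] {I : Type} [Fintype I] [DecidableEq I]
  {J : Matrix I I K} {H : Submodule K (Matrix I I K)} {C : Subalgebra K (Matrix I I K)}

private theorem mat_extQ {a b : Matrix I I K} (h : ∀ v, a *ᵥ v = b *ᵥ v) : a = b := by
  apply Matrix.toLin'.injective
  apply LinearMap.ext
  intro v
  rw [Matrix.toLin'_apply, Matrix.toLin'_apply]
  exact h v

theorem exists_cenq (L : LData J H C) {S : Type} (ε : S → Matrix I I K) (σ : S → S)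
    (hσ : ∀ s, adj J (ε s) = ε (σ s)) (hε : ∀ s, Cm C (ε s)) :
    ∃ q ∈ C, (∀ s, q * ε s = 0) ∧ adj J q = q ∧ (∀ b ∈ C, b * q = q * b) ∧
      ∀ b ∈ C, (∀ s, b * ε s = 0) → b * q = b := by
  have cm1 : Cm C (1 : Matrix I I K) := fun c _ => by rw [one_mul, mul_one]
  have cmm : ∀ a b : Matrix I I K, Cm C a → Cm C b → Cm C (a * b) := by
    intro a b ha hb c hc
    rw [mul_assoc, hb c hc, ← mul_assoc, ha c hc, mul_assoc]
  have adj0 : adj J (0 : Matrix I I K) = 0 := by
    simp only [adj, transpose_zero, mul_zero, zero_mul]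
  let U : Submodule K (I → K) :=
    { carrier := {u | ∀ (s : S) (t : Matrix I I K), Cm C t → ε s *ᵥ (t *ᵥ u) = 0}
      add_mem' := by
        intro x y hx hy s t ht
        rw [mulVec_add, mulVec_add, hx s t ht, hy s t ht, add_zero]
      zero_mem' := fun s t _ => by rw [mulVec_zero, mulVec_zero]
      smul_mem' := by
        intro a x hx s t ht
        rw [mulVec_smul, mulVec_smul, hx s t ht, smul_zero] }
  obtain ⟨q, hq, hq1, hq2⟩ := L.proj U (by
    intro X hX v hv s t ht
    have h := hv s (t * X) (cmm t X ht (L.cm X hX))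
    rwa [← mulVec_mulVec] at h)
  have hεq : ∀ s, ε s * q = 0 := by
    intro s
    apply mat_extQ
    intro v
    have h := hq1 v s 1 cm1
    rw [one_mulVec, mulVec_mulVec] at h
    rw [h, zero_mulVec]
  have hqε : ∀ s, q * ε s = 0 := fun s => by rw [← hε s q hq, hεq s]
  have left : ∀ b ∈ C, (∀ s, b * ε s = 0) → q * b = b := by
    intro b hb h
    apply mat_extQ
    intro v
    rw [← mulVec_mulVec]
    apply hq2
    intro s t ht
    rw [mulVec_mulVec, mulVec_mulVec, mul_assoc, ht b hb, ← mul_assoc, hε s b hb, h s, zero_mul,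
      zero_mulVec]
  have adjL : ∀ b ∈ C, (∀ s, b * ε s = 0) → ∀ s, adj J b * ε s = 0 := by
    intro b hb h s
    have h1 := congrArg (adj J) (show ε (σ s) * b = 0 by rw [hε (σ s) b hb, h])
    rw [← hσ s, adj_mul L.det, adj_adj L.det L.alt, adj0] at h1
    exact h1
  have hq' : adj J q = q := by
    have h1 := left (adj J q) (L.adjC q hq) (adjL q hq hqε)
    have h2 := congrArg (adj J) h1
    rw [adj_mul L.det, adj_adj L.det L.alt, h1] at h2
    exact h2
  have right : ∀ b ∈ C, (∀ s, b * ε s = 0) → b * q = b := by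
    intro b hb h
    have h1 := congrArg (adj J) (left (adj J b) (L.adjC b hb) (adjL b hb h))
    rwa [adj_mul L.det, adj_adj L.det L.alt, hq'] at h1
  refine ⟨q, hq, hqε, hq', ?_, right⟩
  intro b hb
  have h1 := left (b * q) (C.mul_mem hb hq) (fun s => by rw [mul_assoc, hqε s, mul_zero])
  have h2 := right (q * b) (C.mul_mem hq hb) (fun s => by
    rw [mul_assoc, ← hε s b hb, ← mul_assoc, hqε s, zero_mul])
  rw [← h1, ← h2, mul_assoc]

end Pool.Agent.Lib.MP_640417_ag.Uni
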