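import Pool.Agent.Lib.MP_640417_ag.Uni.Defs
import Pool.Agent.Lib.MP_640417_ag.Gn.CoordG
import Pool.Agent.Lib.MP_640417_ag.Gn.ResG

/-!
# MP_640417_ag, Uni, module Coord1 (200 lines): coordinates and open subgroups

The model is `Gn/CoordG.lean` (`good_iff`, `detects_iff`; its auxiliary lemmas `wt_iff`, `wt_bot`, `dual_iff`, `isolated_iff`, `comm_iff`,
`ss_iff`, `toLin_cancel` are public now) and `Gn/ResG.lean` (`goodG_res`, `detectsG_res`; `wt_res`, `dual_res`, `iso_res` are public now).
* `lef_coord1`: as `lef_coord` in `Gen4/Main.lean` (copy): `Lefschetz ρ X` if and only if `LefM R (toMatrix b b X)`.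
* The third part of `Good1`: `maK b` (the matrix of an endomorphism of `K ⊗ V`) maps `Y.baseChange K` to `(toMatrix b b Y).map`
  and is `K`-linear and bijective, so it maps the span to the span (`Submodule.map_span`, or `Submodule.span_induction` in both
  directions); `(coK b) (X y) = (maK b X) *ᵥ (coK b y)` (`coK_end`).
* The third part of `Detects1`: `maK b (c * X.baseChange K) = maK b c * (toMatrix b b X).map`.
-/

set_option autoImplicit false

namespace Pool.Agent.Lib.MP_640417_ag.Uni

open Matrix Module TensorProduct Pool.Agent.Lib.MP_640417_ag Pool.Agent.Lib.MP_640417_ag.Frob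
  Pool.Agent.Lib.MP_640417_ag.Four Pool.Agent.Lib.MP_640417_ag.Ty
  Pool.Agent.Lib.MP_640417_ag.Glob Pool.Agent.Lib.MP_640417_ag.Ctl Pool.Agent.Lib.MP_640417_ag.Gn

section coord

variable {Γ : Type} [Group Γ] [TopologicalSpace Γ] {F : Type} [NontriviallyNormedField F]
  [CharZero F]
  {I : Type} [Fintype I] [DecidableEq I] {V : Type} [AddCommGroup V] [Module F V]
  [FiniteDimensional F V] (ρ : H1Rep Γ F V) (b : Basis I F V) (R : MRep Γ F I)
  (h1 : ∀ γ, R.M γ = LinearMap.toMatrix b b (ρ.T γ)) (h2 : R.μ = ρ.χ⁻¹)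
  (h3 : ∀ i j, R.J i j = ρ.form (b i) (b j))

omit [CharZero F] [FiniteDimensional F V] in
include h3 in
private theorem skew_iff1 (X : Module.End F V) :
    LinearMap.toMatrix b b X ∈ spJ R.J ↔ ∀ x y, ρ.form (X x) y + ρ.form x (X y) = 0 := by
  have hJ : R.J = LinearMap.BilinForm.toMatrix b ρ.form := by
    ext i j
    rw [h3, LinearMap.BilinForm.toMatrix_apply]
  have h : (LinearMap.toMatrix b b X)ᵀ * R.J + R.J * LinearMap.toMatrix b b X =
      LinearMap.BilinForm.toMatrix b (LinearMap.BilinForm.compLeft ρ.form X +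
        LinearMap.BilinForm.compRight ρ.form X) := by
    rw [map_add, LinearMap.BilinForm.toMatrix_compLeft, LinearMap.BilinForm.toMatrix_compRight, hJ]
  show (LinearMap.toMatrix b b X)ᵀ * R.J + R.J * LinearMap.toMatrix b b X = 0 ↔ _
  rw [h, LinearEquiv.map_eq_zero_iff]
  constructor
  · intro h0 x y
    exact LinearMap.congr_fun (LinearMap.congr_fun h0 x) y
  · intro h0
    exact LinearMap.ext fun x => LinearMap.ext fun y => h0 x y

include h1 h3 in
theorem lef_coord1 (X : Module.End F V) : Lefschetz ρ X ↔ LefM R (LinearMap.toMatrix b b X) := by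
  unfold LefM
  rw [skew_iff1 ρ b R h3]
  constructor
  · rintro ⟨h4, h5⟩
    refine ⟨h5, fun c hc => ?_⟩
    obtain ⟨c', rfl⟩ := (LinearMap.toMatrix b b).surjective c
    rw [← LinearMap.toMatrix_mul, ← LinearMap.toMatrix_mul,
      h4 c' ((commF_iff ρ b R h1 c').mpr hc)]
  · rintro ⟨h5, h4⟩
    refine ⟨fun c hc => (LinearMap.toMatrix b b).injective ?_, h5⟩
    rw [LinearMap.toMatrix_mul, LinearMap.toMatrix_mul,
      h4 _ ((commF_iff ρ b R h1 c).mp hc)]

include h1 h3 in
private theorem span_iff1 (X : Module.End (AlgebraicClosure F) (AlgebraicClosure F ⊗[F] V)) :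
    X ∈ Submodule.span (AlgebraicClosure F)
      {X : Module.End (AlgebraicClosure F) (AlgebraicClosure F ⊗[F] V) |
        ∃ Y, Lefschetz ρ Y ∧ X = Y.baseChange (AlgebraicClosure F)} ↔
    maK b X ∈ Submodule.span (AlgebraicClosure F) {X : Matrix I I (AlgebraicClosure F) |
        ∃ Y, LefM R Y ∧ X = Y.map (algebraMap F (AlgebraicClosure F))} := by
  let e := LinearMap.toMatrix (Algebra.TensorProduct.basis (AlgebraicClosure F) b)
    (Algebra.TensorProduct.basis (AlgebraicClosure F) b)
  have hS : {X : Matrix I I (AlgebraicClosure F) |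
        ∃ Y, LefM R Y ∧ X = Y.map (algebraMap F (AlgebraicClosure F))} =
      e.toLinearMap '' {X : Module.End (AlgebraicClosure F) (AlgebraicClosure F ⊗[F] V) |
        ∃ Y, Lefschetz ρ Y ∧ X = Y.baseChange (AlgebraicClosure F)} := by
    ext A
    constructor
    · rintro ⟨Y, hY, rfl⟩
      obtain ⟨Y', rfl⟩ := (LinearMap.toMatrix b b).surjective Y
      exact ⟨Y'.baseChange (AlgebraicClosure F), ⟨Y', (lef_coord1 ρ b R h1 h3 Y').mpr hY, rfl⟩,
        maK_base b Y'⟩
    · rintro ⟨_, ⟨Y, hY, rfl⟩, rfl⟩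
      exact ⟨_, (lef_coord1 ρ b R h1 h3 Y).mp hY, maK_base b Y⟩
  rw [hS, ← Submodule.map_span]
  constructor
  · intro h
    exact Submodule.mem_map_of_mem h
  · rintro ⟨Y, hY, hYX⟩
    have h5 : Y = X := e.injective hYX
    rwa [h5] at hY

include h1 h2 h3 in
theorem good1_iff (γ : Γ) : Good1 ρ γ ↔ GoodM1 R (AlgebraicClosure F) γ := by
  rw [Good1, GoodM1, comm_iff ρ b R h1]
  refine and_congr Iff.rfl (and_congr ?_ ?_)
  · constructor
    · intro h z κ hw hd
      have h5 := h z (fun e => κ (LinearMap.toMatrix b b e))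
      rw [Ne, wt_bot ρ b R h1 h3, isolated_iff ρ b R h1 h2 h3, dual_iff ρ b R h1 h2 h3] at h5
      simp only [LinearMap.toMatrix_toLin] at h5
      exact h5 hw hd
    · intro h z κ hw hd
      rw [Ne, wt_bot ρ b R h1 h3] at hw
      rw [dual_iff ρ b R h1 h2 h3] at hd
      rw [isolated_iff ρ b R h1 h2 h3]
      exact h z _ hw hd
  · constructor
    · intro h X hX h0
      obtain ⟨X', rfl⟩ := maK_surj b X
      rw [maK_zero_iff]
      refine h X' ((span_iff1 ρ b R h1 h3 X').mpr hX) fun z κ hz y hy => ?_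
      apply (coK b).injective
      rw [coK_end, map_zero]
      rw [dual_iff ρ b R h1 h2 h3] at hz
      exact h0 z _ hz _ ((wt_iff ρ b R h1 h3 γ z κ y).1 hy)
    · intro h X hX h0
      rw [← maK_zero_iff b]
      refine h _ ((span_iff1 ρ b R h1 h3 X).mp hX) fun z κ hz y hy => ?_
      have h5 := h0 z (fun e => κ (LinearMap.toMatrix b b e))
      rw [dual_iff ρ b R h1 h2 h3] at h5
      simp only [LinearMap.toMatrix_toLin] at h5
      have h6 := h5 hz ((coK b).symm y) (by
        rw [wt_iff ρ b R h1 h3, LinearEquiv.apply_symm_apply]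
        simp only [LinearMap.toMatrix_toLin]
        exact hy)
      have h7 := congrArg (coK b) h6
      rw [coK_end, LinearEquiv.apply_symm_apply, map_zero] at h7
      exact h7

include h1 h2 h3 in
theorem detects1_iff (γ : Γ) : Detects1 ρ γ ↔ DetectsM1 R (AlgebraicClosure F) γ := by
  rw [Detects1, DetectsM1, comm_iff ρ b R h1, ss_iff b, ← h1]
  have hmul : ∀ (c : Module.End (AlgebraicClosure F) (AlgebraicClosure F ⊗[F] V))
      (X : Module.End F V), c * X.baseChange (AlgebraicClosure F) = 0 ↔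
        maK b c * (LinearMap.toMatrix b b X).map (algebraMap F (AlgebraicClosure F)) = 0 := by
    intro c X
    rw [← maK_base, ← maK_zero_iff b]
    have h5 : maK b (c * X.baseChange (AlgebraicClosure F)) =
        maK b c * maK b (X.baseChange (AlgebraicClosure F)) := LinearMap.toMatrix_mul _ _ _
    rw [h5]
  refine and_congr Iff.rfl (and_congr Iff.rfl ?_)
  constructor
  · intro h c hc hiso X hX
    obtain ⟨c', rfl⟩ := maK_surj b c
    obtain ⟨X', rfl⟩ := (LinearMap.toMatrix b b).surjective X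
    rw [← hmul]
    refine h c' ((commK_iff ρ b R h1 c').2 hc) (fun z κ hz y hy => ?_) X'
      ((lef_coord1 ρ b R h1 h3 X').mpr hX)
    apply (coK b).injective
    rw [coK_end, map_zero]
    exact hiso z _ ((isolated_iff ρ b R h1 h2 h3 γ z κ).1 hz) _
      ((wt_iff ρ b R h1 h3 γ z κ y).1 hy)
  · intro h c hc hiso X hX
    rw [hmul]
    refine h _ ((commK_iff ρ b R h1 c).1 hc) (fun z κ hz y hy => ?_) _
      ((lef_coord1 ρ b R h1 h3 X).mp hX)
    have h5 := hiso z (fun e => κ (LinearMap.toMatrix b b e))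
    rw [isolated_iff ρ b R h1 h2 h3] at h5
    simp only [LinearMap.toMatrix_toLin] at h5
    have h6 := h5 hz ((coK b).symm y) (by
      rw [wt_iff ρ b R h1 h3, LinearEquiv.apply_symm_apply]
      simp only [LinearMap.toMatrix_toLin]
      exact hy)
    have h7 := congrArg (coK b) h6
    rw [coK_end, LinearEquiv.apply_symm_apply, map_zero] at h7
    exact h7

end coord

section res

variable {F : Type} [NontriviallyNormedField F] [CharZero F]
  {Γ : Type} [Group Γ] [TopologicalSpace Γ] [IsTopologicalGroup Γ] [CompactSpace Γ] {V : Type}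
  [AddCommGroup V] [Module F V] [FiniteDimensional F V] (ρ : H1Rep Γ F V) (U : OpenSubgroup Γ)

theorem good1_res (γ : U) : Good1 (res ρ U) γ ↔ Good1 ρ γ := by
  unfold Good1
  simp only [commF_res, wt_res, iso_res, dual_res, lefschetz_res]
  exact Iff.rfl

theorem detects1_res (γ : U) : Detects1 (res ρ U) γ ↔ Detects1 ρ γ := by
  unfold Detects1
  simp only [commF_res, commK_res, wt_res, iso_res, lefschetz_res]
  exact Iff.rfl

end res

end Pool.Agent.Lib.MP_640417_ag.Uni
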