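import Pool.Agent.Lib.MP_640417_ag.Uni.Defs
import Pool.Agent.Lib.MP_640417_ag.Gn.GapA

/-!
# MP_640417_ag, Uni, module GapZ (200 lines): nothing lives on the self-dual weight space

`ε a = D.ε a`; every `ε a` commutes with `C` (`D.comm` with `hg`, `hc`), `adj J (ε a) = ε (st a)` (`D.star`); skew means
`adj J X = - X` (`adj_skew`). If no `a` has `st a = a` then `X = ∑ X ε a = 0`. Let `st a0 = a0`, `e = ε a0`: `adj J e = e`, `k a0 = 0` (from
`D.kdual`, `2 ≠ 0`), `z a0 ^ 2 = μ` (`D.zdual`), `c e = 0` (`D.ceig`).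
1. The range `W` of `e` is contained in `G1 c g μ` (`(g - z a0) e` is nilpotent, so `(g^2 - μ) e = (g + z a0)(g - z a0) e` is, compare
   `gk_selfdual` in `Gn/GoodK.lean`), so `dim W ≤ m`.
2. Let `Y` be skew, `Cm C Y` and `Y * ε a = 0` for all `a ≠ a0`. Then `Y = Y e`, and (apply `adj J`) `ε a * Y = 0` for `a ≠ a0`, `Y = e Y`.
   `X' = X0 D x + Y` is skew and commutes with `C` (`X0_skew`, `X0_cm`), so `m ≤ dim (N1 c X')`. Let `t ∈ N1 c X'`, `X'^k t = 0`. For
   `a ≠ a0`: `ε a X'^k = (10 x a)^k ε a` (`X0_eig`), so `ε a t = 0` as `x a ≠ 0` (`hx0`; all `a ≠ a0` have `st a ≠ a` by `hfix`), so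
   `t = e t ∈ W`, and `X' t' = Y t'` for `t' ∈ W` (`x a0 = 0` as `x (st a0) = - x a0`), so `Y^k t = 0`. So `N1 c X' ≤ W`, and as
   `dim W ≤ m ≤ dim (N1 c X')` it is `W`: `Y` is nilpotent on `W`, and `Y = Y e`, `Y = e Y`, so `Y` is nilpotent.
3. For two such elements `Y, Y'` also `Y + Y'` is such an element; the trace of the square of a nilpotent matrix is zero
   (`Matrix.isNilpotent_trace_of_isNilpotent` or `LinearMap.isNilpotent_trace_of_isNilpotent`), so `2 tr (Y Y') = 0`.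
4. Now `X` is such an element (`h0`). Let `Y` be skew with `Cm C Y`. Then `Y' = e Y e` is skew, commutes with `C` and
   `Y' ε a = 0` for `a ≠ a0`; `tr (X Y) = tr (e X e Y) = tr (X e Y e) = tr (X Y') = 0`. By `hnd` `X = 0`.
-/

set_option autoImplicit false

namespace Pool.Agent.Lib.MP_640417_ag.Uni

open Matrix Pool.Agent.Lib.MP_640417_ag.Glob Pool.Agent.Lib.MP_640417_ag.Gn

variable {K : Type} [Field K] [CharZero K] {I : Type} [Fintype I] [DecidableEq I]

omit [CharZero K] in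
/-- on a self-dual weight `g ^ 2 - μ` is nilpotent -/
private theorem gapZ_nil {J g c : Matrix I I K} {μ : K} (D : WDec J g c μ) (a : Fin D.n)
    (hz : D.z a * D.z a = μ) : ∃ m : ℕ, (g ^ 2 - μ • (1 : Matrix I I K)) ^ m * D.ε a = 0 := by
  have hεg : D.ε a * g = g * D.ε a := (D.comm a g rfl D.cg.symm).symm
  have hnil : IsNilpotent ((g ^ 2 - μ • (1 : Matrix I I K)) * D.ε a) := by
    have h0 : (g + D.z a • 1) * (g - D.z a • 1) =
        g ^ 2 - (D.z a * D.z a) • (1 : Matrix I I K) := by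
      rw [add_mul, mul_sub, mul_sub]
      simp only [smul_mul_assoc, mul_smul_comm, one_mul, mul_one, smul_smul]
      rw [sq]
      abel
    have h1 : (g ^ 2 - μ • (1 : Matrix I I K)) * D.ε a =
        (g + D.z a • 1) * ((g - D.z a • 1) * D.ε a) := by
      rw [← mul_assoc, h0, hz]
    rw [h1]
    refine Commute.isNilpotent_mul_left ?_ (D.nil a)
    change (g + D.z a • 1) * ((g - D.z a • 1) * D.ε a) =
      (g - D.z a • 1) * D.ε a * (g + D.z a • 1)
    have h2 : D.ε a * (g + D.z a • 1) = (g + D.z a • 1) * D.ε a := by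
      rw [mul_add, add_mul, hεg, mul_smul_comm, smul_mul_assoc, one_mul, mul_one]
    rw [mul_assoc, h2, ← mul_assoc, ← mul_assoc]
    congr 1
    rw [add_mul, mul_sub, mul_sub, sub_mul, mul_add, mul_add]
    simp only [smul_mul_assoc, mul_smul_comm, one_mul, mul_one, smul_smul]
    abel
  obtain ⟨m, hm⟩ := hnil
  have hcomm : Commute (g ^ 2 - μ • (1 : Matrix I I K)) (D.ε a) := by
    change (g ^ 2 - μ • (1 : Matrix I I K)) * D.ε a = D.ε a * (g ^ 2 - μ • (1 : Matrix I I K))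
    have h1 : Commute (D.ε a) g := hεg
    have h2 : D.ε a * g ^ 2 = g ^ 2 * D.ε a := h1.pow_right 2
    rw [mul_sub, sub_mul, h2, mul_smul_comm, smul_mul_assoc, mul_one, one_mul]
  have hεp : ∀ m : ℕ, D.ε a ^ m * D.ε a = D.ε a := by
    intro m
    induction m with
    | zero => rw [pow_zero, one_mul]
    | succ m ih => rw [pow_succ, mul_assoc, D.idem, ih]
  refine ⟨m, ?_⟩
  have h1 : ((g ^ 2 - μ • (1 : Matrix I I K)) * D.ε a) ^ m * D.ε a = 0 := by
    rw [hm, zero_mul]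
  rw [hcomm.mul_pow, mul_assoc, hεp] at h1
  exact h1

omit [CharZero K] in
/-- locally nilpotent matrices are nilpotent -/
private theorem gapZ_loc (Y : Matrix I I K) (h : ∀ s : I → K, ∃ k : ℕ, (Y ^ k) *ᵥ s = 0) :
    IsNilpotent Y := by
  choose k hk using fun i : I => h (Pi.single i 1)
  refine ⟨∑ i, k i, ?_⟩
  ext i j
  have h1 : k j ≤ ∑ i, k i := Finset.single_le_sum (f := k) (fun _ _ => Nat.zero_le _)
    (Finset.mem_univ j)
  have h2 : (Y ^ (∑ i, k i)) *ᵥ (Pi.single j 1) = 0 := by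
    obtain ⟨n, hn⟩ := Nat.exists_eq_add_of_le' h1
    rw [hn, pow_add, ← Matrix.mulVec_mulVec, hk, Matrix.mulVec_zero]
  have h3 := congrFun h2 i
  rw [Matrix.mulVec_single_one] at h3
  exact h3

omit [CharZero K] in
private theorem gapZ_adj_zero (J : Matrix I I K) : adj J 0 = 0 := by
  unfold adj
  rw [Matrix.transpose_zero, mul_zero, zero_mul]

theorem gap_zero {J g c : Matrix I I K} {μ : K} (hJ : J.det ≠ 0) (hs : Jᵀ = -J)
    (D : WDec J g c μ) {x : Fin D.n → ℤ} (hx : GoodNum D.st x) (hx0 : ∀ a, D.st a ≠ a → x a ≠ 0)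
    (hfix : ∀ a b, D.st a = a → D.st b = b → a = b)
    (C : Subalgebra K (Matrix I I K)) (hg : Cm C g) (hc : Cm C c) (hcg : c * g = g * c) (m : ℕ)
    (hm : ∀ X, Xᵀ * J + J * X = 0 → Cm C X → m ≤ Module.finrank K (N1 c X))
    (hG : Module.finrank K (G1 c g μ) ≤ m)
    (hnd : ∀ X, Xᵀ * J + J * X = 0 → Cm C X →
      (∀ Y, Yᵀ * J + J * Y = 0 → Cm C Y → Matrix.trace (X * Y) = 0) → X = 0)
    {X : Matrix I I K} (hX : Xᵀ * J + J * X = 0) (hXC : Cm C X)
    (h0 : ∀ a, D.st a ≠ a → X * D.ε a = 0) : X = 0 := by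
  by_cases hex : ∃ a0, D.st a0 = a0
  swap
  · push Not at hex
    rw [← mul_one X, ← D.sum, Finset.mul_sum]
    exact Finset.sum_eq_zero fun a _ => h0 a (hex a)
  obtain ⟨a0, ha0⟩ := hex
  have hne : ∀ a, a ≠ a0 → D.st a ≠ a := fun a ha h1 => ha (hfix a a0 h1 ha0)
  have hz : D.z a0 * D.z a0 = μ := by
    have h1 := D.zdual a0
    rwa [ha0] at h1
  have hk0 : D.k a0 = 0 := by
    have h1 := D.kdual a0
    rw [ha0] at h1
    have h2 : (2 : K) * D.k a0 = 0 := by rw [two_mul]; exact h1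
    exact (mul_eq_zero.mp h2).resolve_left two_ne_zero
  have hce : c * D.ε a0 = 0 := by rw [D.ceig, hk0, zero_smul]
  have hxa0 : x a0 = 0 := by
    have h1 := hx.1 a0
    rw [ha0] at h1
    omega
  have hade : adj J (D.ε a0) = D.ε a0 := by rw [D.star, ha0]
  have heC : ∀ a, Cm C (D.ε a) := fun a b hb => (D.comm a b (hg b hb).symm (hc b hb).symm).symm
  -- Step 1
  obtain ⟨N, hN⟩ := gapZ_nil D a0 hz
  have hW : LinearMap.range (Matrix.toLin' (D.ε a0)) ≤ G1 c g μ := by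
    rintro _ ⟨s, rfl⟩
    refine ⟨?_, ?_⟩
    · rw [SetLike.mem_coe, gapA_mem]
      refine ⟨N, ?_⟩
      rw [Matrix.toLin'_apply, Matrix.mulVec_mulVec, hN, Matrix.zero_mulVec]
    · rw [SetLike.mem_coe, LinearMap.mem_ker, Matrix.toLin'_apply, Matrix.toLin'_apply,
        Matrix.mulVec_mulVec, hce, Matrix.zero_mulVec]
  have hWm : Module.finrank K (LinearMap.range (Matrix.toLin' (D.ε a0))) ≤ m :=
    (Submodule.finrank_mono hW).trans hG
  -- Step 2
  have key : ∀ Y : Matrix I I K, Yᵀ * J + J * Y = 0 → Cm C Y →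
      (∀ a, a ≠ a0 → Y * D.ε a = 0) → Y * D.ε a0 = Y ∧ D.ε a0 * Y = Y ∧ IsNilpotent Y := by
    intro Y hY hYC hYa
    have hYe : Y * D.ε a0 = Y := by
      have h1 : Y * ∑ a, D.ε a = Y := by rw [D.sum, mul_one]
      rw [Finset.mul_sum, Finset.sum_eq_single a0 (fun a _ ha => hYa a ha)
        (fun h => absurd (Finset.mem_univ _) h)] at h1
      exact h1
    have haY : ∀ a, a ≠ a0 → D.ε a * Y = 0 := by
      intro a ha
      have h1 : D.st a ≠ a0 := by
        intro h2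
        apply ha
        rw [← D.st_st a, h2, ha0]
      have h2 : adj J (Y * D.ε (D.st a)) = 0 := by
        rw [hYa _ h1, gapZ_adj_zero]
      rw [adj_mul hJ, D.star, D.st_st, (adj_skew hJ Y).1 hY, mul_neg, neg_eq_zero] at h2
      exact h2
    have heY : D.ε a0 * Y = Y := by
      have h1 : (∑ a, D.ε a) * Y = Y := by rw [D.sum, one_mul]
      rw [Finset.sum_mul, Finset.sum_eq_single a0 (fun a _ ha => haY a ha)
        (fun h => absurd (Finset.mem_univ _) h)] at h1
      exact h1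
    refine ⟨hYe, heY, ?_⟩
    have hsk : (X0 D x + Y)ᵀ * J + J * (X0 D x + Y) = 0 := by
      have h1 := X0_skew hJ D hx
      rw [Matrix.transpose_add, add_mul, mul_add]
      calc (X0 D x)ᵀ * J + Yᵀ * J + (J * X0 D x + J * Y) =
          ((X0 D x)ᵀ * J + J * X0 D x) + (Yᵀ * J + J * Y) := by abel
        _ = 0 := by rw [h1, hY, add_zero]
    have hcm : Cm C (X0 D x + Y) := by
      intro b hb
      rw [add_mul, mul_add, X0_cm D x C hg hc b hb, hYC b hb]
    have hmN := hm _ hsk hcm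
    have hε : ∀ a, a ≠ a0 → ∀ k : ℕ, D.ε a * (X0 D x + Y) ^ k =
        ((10 * (x a : K)) ^ k) • D.ε a := by
      intro a ha k
      induction k with
      | zero => rw [pow_zero, pow_zero, mul_one, one_smul]
      | succ k ih =>
        rw [pow_succ, ← mul_assoc, ih, smul_mul_assoc, mul_add, (X0_eig D x a).2, haY a ha,
          add_zero, smul_smul, ← pow_succ]
    have hNW : N1 c (X0 D x + Y) ≤ LinearMap.range (Matrix.toLin' (D.ε a0)) := by
      rintro t ⟨ht, -⟩
      rw [SetLike.mem_coe, gapA_mem] at ht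
      obtain ⟨k, hk⟩ := ht
      rw [zero_smul, sub_zero] at hk
      have h1 : ∀ a, a ≠ a0 → D.ε a *ᵥ t = 0 := by
        intro a ha
        have h2 : ((10 * (x a : K)) ^ k) • (D.ε a *ᵥ t) = 0 := by
          rw [← Matrix.smul_mulVec, ← hε a ha k, ← Matrix.mulVec_mulVec, hk, Matrix.mulVec_zero]
        refine (smul_eq_zero.mp h2).resolve_left (pow_ne_zero k (mul_ne_zero ?_ ?_))
        · have h3 : ((10 : ℕ) : K) ≠ 0 := Nat.cast_ne_zero.2 (by norm_num)
          exact_mod_cast h3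
        · exact Int.cast_ne_zero.2 (hx0 a (hne a ha))
      refine ⟨t, ?_⟩
      rw [Matrix.toLin'_apply]
      have h2 : (∑ a, D.ε a) *ᵥ t = t := by rw [D.sum, Matrix.one_mulVec]
      rw [Matrix.sum_mulVec, Finset.sum_eq_single a0 (fun a _ ha => h1 a ha)
        (fun h => absurd (Finset.mem_univ _) h)] at h2
      exact h2
    have hEq := Submodule.eq_of_le_of_finrank_le hNW (hWm.trans hmN)
    have hXe : (X0 D x + Y) * D.ε a0 = Y * D.ε a0 := by
      rw [add_mul, (X0_eig D x a0).1, hxa0, Int.cast_zero, mul_zero, zero_smul, zero_add]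
    have hpow : ∀ k : ℕ, (X0 D x + Y) ^ k * D.ε a0 = Y ^ k * D.ε a0 ∧
        D.ε a0 * (Y ^ k * D.ε a0) = Y ^ k * D.ε a0 := by
      intro k
      induction k with
      | zero =>
        rw [pow_zero, pow_zero, one_mul]
        exact ⟨rfl, D.idem a0⟩
      | succ k ih =>
        constructor
        · rw [pow_succ', mul_assoc, ih.1, ← ih.2, ← mul_assoc, hXe, mul_assoc, ih.2, pow_succ',
            mul_assoc]
        · rw [pow_succ', mul_assoc, ← mul_assoc, heY]
    refine gapZ_loc Y fun s => ?_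
    have h1 : D.ε a0 *ᵥ s ∈ N1 c (X0 D x + Y) := by
      rw [hEq]
      exact ⟨s, Matrix.toLin'_apply _ _⟩
    have h2 := h1.1
    rw [SetLike.mem_coe, gapA_mem] at h2
    obtain ⟨k, hk⟩ := h2
    rw [zero_smul, sub_zero, Matrix.mulVec_mulVec, (hpow k).1] at hk
    refine ⟨k + 1, ?_⟩
    have h3 : Y ^ (k + 1) = Y * (Y ^ k * D.ε a0) := by
      rw [← mul_assoc, ← pow_succ', pow_succ, mul_assoc, hYe]
    rw [h3, ← Matrix.mulVec_mulVec, hk, Matrix.mulVec_zero]
  -- Step 3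
  have hsq : ∀ Y : Matrix I I K, Yᵀ * J + J * Y = 0 → Cm C Y →
      (∀ a, a ≠ a0 → Y * D.ε a = 0) → Matrix.trace (Y * Y) = 0 := by
    intro Y hY hYC hYa
    obtain ⟨-, -, hn⟩ := key Y hY hYC hYa
    exact (Matrix.isNilpotent_trace_of_isNilpotent
      (Commute.isNilpotent_mul_left (Commute.refl Y) hn)).eq_zero
  have htr : ∀ Y Y' : Matrix I I K, Yᵀ * J + J * Y = 0 → Cm C Y →
      (∀ a, a ≠ a0 → Y * D.ε a = 0) → Y'ᵀ * J + J * Y' = 0 → Cm C Y' →
      (∀ a, a ≠ a0 → Y' * D.ε a = 0) → Matrix.trace (Y * Y') = 0 := by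
    intro Y Y' h1 h2 h3 h4 h5 h6
    have h7 := hsq (Y + Y') (by
      rw [Matrix.transpose_add, add_mul, mul_add]
      calc Yᵀ * J + Y'ᵀ * J + (J * Y + J * Y') =
          (Yᵀ * J + J * Y) + (Y'ᵀ * J + J * Y') := by abel
        _ = 0 := by rw [h1, h4, add_zero]) (by
      intro b hb
      rw [add_mul, mul_add, h2 b hb, h5 b hb]) (by
      intro a ha
      rw [add_mul, h3 a ha, h6 a ha, add_zero])
    rw [add_mul, mul_add, mul_add, Matrix.trace_add, Matrix.trace_add, Matrix.trace_add,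
      hsq Y h1 h2 h3, hsq Y' h4 h5 h6, Matrix.trace_mul_comm Y' Y, zero_add, add_zero,
      ← two_mul] at h7
    exact (mul_eq_zero.mp h7).resolve_left two_ne_zero
  -- Step 4
  have hXa : ∀ a, a ≠ a0 → X * D.ε a = 0 := fun a ha => h0 a (hne a ha)
  obtain ⟨hXe, heX, -⟩ := key X hX hXC hXa
  refine hnd X hX hXC fun Y hY hYC => ?_
  have h1 : Matrix.trace (X * Y) = Matrix.trace (X * (D.ε a0 * Y * D.ε a0)) := by
    calc Matrix.trace (X * Y) = Matrix.trace (D.ε a0 * (X * D.ε a0 * Y)) := by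
          rw [hXe, ← mul_assoc, heX]
      _ = Matrix.trace (X * (D.ε a0 * Y * D.ε a0)) := by
          rw [Matrix.trace_mul_comm]
          simp only [mul_assoc]
  rw [h1]
  refine htr X _ hX hXC hXa ?_ ?_ ?_
  · rw [adj_skew hJ, adj_mul hJ, adj_mul hJ, hade, (adj_skew hJ Y).1 hY]
    simp only [mul_neg, neg_mul, mul_assoc]
  · intro b hb
    rw [mul_assoc, heC a0 b hb, ← mul_assoc, mul_assoc _ Y b, hYC b hb, ← mul_assoc _ b Y,
      heC a0 b hb]
    simp only [mul_assoc]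
  · intro a ha
    rw [mul_assoc, D.orth a0 a (Ne.symm ha), mul_zero]

end Pool.Agent.Lib.MP_640417_ag.Uni
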