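import Pool.Agent.Lib.MP_640417_ag.Gn.GenN

/-!
# MP_640417_ag, Uni, module GenM (200 lines): a tangent vector with few relations

Copy the proof of `exists_tangent` in `Gn/GenN.lean` (with its private lemmas), with the coefficient of degree `m` of the characteristic
polynomial of `π0 X ι0` in the place of its determinant: both are polynomial functions of `X`.
-/

set_option autoImplicit false

namespace Pool.Agent.Lib.MP_640417_ag.Uni

open Matrix Pool.Agent.Lib.MP_640417_ag.Glob Pool.Agent.Lib.MP_640417_ag.Gn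

section gen

variable {F : Type} [Field F] {I : Type} [Fintype I] [DecidableEq I]

private theorem gnd4_map {R S : Type} [CommRing R] [CommRing S] (f : R →+* S)
    (X : Matrix I I R) : d4 (X.map f) = (d4 X).map f := by
  ext x y
  have h1 : ∀ a b : I, (1 : Matrix I I S) a b = f ((1 : Matrix I I R) a b) := by
    intro a b
    rw [Matrix.one_apply, Matrix.one_apply]
    split_ifs
    · exact (map_one f).symm
    · exact (map_zero f).symm
  simp only [d4, Matrix.map_apply, Matrix.of_apply, h1, map_add, map_mul]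

/-- the generic combination -/
private noncomputable def gnY {ι : Type} [Fintype ι] (A : ι → Matrix I I F) (t : ι → F) :
    Matrix I I (MvPolynomial ι F) :=
  ∑ j, (MvPolynomial.X j : MvPolynomial ι F) • (A j).map MvPolynomial.C -
    (∑ j, (MvPolynomial.X j : MvPolynomial ι F) * MvPolynomial.C (t j / 2)) •
      (1 : Matrix I I (MvPolynomial ι F))

private theorem gnY_map {ι : Type} [Fintype ι] (A : ι → Matrix I I F) (t : ι → F) (v : ι → F) :
    (gnY A t).map (MvPolynomial.eval v) = ∑ j, v j • A j -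
      ((∑ j, v j * t j) / 2) • (1 : Matrix I I F) := by
  ext a b
  have h1 : (∑ j, v j * t j) / 2 = ∑ j, v j * (t j / 2) := by
    rw [Finset.sum_div]
    exact Finset.sum_congr rfl fun j _ => by ring
  rw [h1]
  simp only [gnY, Matrix.map_apply, Matrix.sub_apply, Matrix.sum_apply, Matrix.smul_apply,
    smul_eq_mul, map_sub, map_sum, map_mul, MvPolynomial.eval_X, MvPolynomial.eval_C]
  by_cases hab : a = b
  · subst hab
    rw [Matrix.one_apply_eq, Matrix.one_apply_eq, map_one]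
  · rw [Matrix.one_apply_ne hab, Matrix.one_apply_ne hab, map_zero]

private theorem gn_map_map {κ κ' ι : Type} (B : Matrix κ κ' F) (v : ι → F) :
    (B.map (MvPolynomial.C : F →+* MvPolynomial ι F)).map (MvPolynomial.eval v) = B := by
  ext a b
  rw [Matrix.map_apply, Matrix.map_apply, MvPolynomial.eval_C]

private theorem gn_coeff {ι : Type} {c : Matrix I I F} (kb : KB (d4 c)) (r : ℕ)
    (Y : Matrix I I (MvPolynomial ι F)) (v : ι → F) :
    MvPolynomial.eval v ((kb.π.map (MvPolynomial.C : F →+* MvPolynomial ι F) * d4 Y *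
      kb.ι.map (MvPolynomial.C : F →+* MvPolynomial ι F)).charpoly.coeff r) =
      (kb.π * d4 (Y.map (MvPolynomial.eval v)) * kb.ι).charpoly.coeff r := by
  have h1 : kb.π * d4 (Y.map (MvPolynomial.eval v)) * kb.ι =
      (kb.π.map (MvPolynomial.C : F →+* MvPolynomial ι F) * d4 Y *
        kb.ι.map (MvPolynomial.C : F →+* MvPolynomial ι F)).map (MvPolynomial.eval v) := by
    rw [Matrix.map_mul, Matrix.map_mul, gn_map_map, gn_map_map, gnd4_map]
  rw [h1, Matrix.charpoly_map, Polynomial.coeff_map]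

private theorem gn_coeff0 {ι : Type} {c : Matrix I I F} (k0 : KB c) (m : ℕ)
    (Y : Matrix I I (MvPolynomial ι F)) (v : ι → F) :
    MvPolynomial.eval v ((k0.π.map (MvPolynomial.C : F →+* MvPolynomial ι F) * Y *
      k0.ι.map (MvPolynomial.C : F →+* MvPolynomial ι F)).charpoly.coeff m) =
      (k0.π * Y.map (MvPolynomial.eval v) * k0.ι).charpoly.coeff m := by
  have h1 : k0.π * Y.map (MvPolynomial.eval v) * k0.ι =
      (k0.π.map (MvPolynomial.C : F →+* MvPolynomial ι F) * Y *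
        k0.ι.map (MvPolynomial.C : F →+* MvPolynomial ι F)).map (MvPolynomial.eval v) := by
    rw [Matrix.map_mul, Matrix.map_mul, gn_map_map, gn_map_map]
  rw [h1, Matrix.charpoly_map, Polynomial.coeff_map]

end gen

variable {F : Type} [NontriviallyNormedField F] [IsUltrametricDist F] [CompleteSpace F] [CharZero F]
  {I : Type} [Fintype I] [DecidableEq I] {Γ : Type} [Group Γ] [TopologicalSpace Γ]
  [IsTopologicalGroup Γ] [CompactSpace Γ] (ρ : MRep Γ F I)

omit [IsUltrametricDist F] [CompleteSpace F] [CharZero F] [IsTopologicalGroup Γ]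
  [CompactSpace Γ] in
private theorem gn_zero (l : ℕ) : (0 : Matrix I I F) ∈ ρ.Zt l := by
  refine ⟨fun _ => 1, ?_⟩
  simp only [map_one, sub_self, smul_zero]
  exact tendsto_const_nhds

omit [IsTopologicalGroup Γ] [CompactSpace Γ] in
private theorem gn_sum (l : ℕ) (hl : ‖(l : F)‖ < 1) (hl0 : (l : F) ≠ 0) {ι : Type}
    (w : Finset ι) (A : ι → Matrix I I F) (hA : ∀ i, A i ∈ ρ.Zt l) (t : ι → ℕ) :
    (∑ i ∈ w, (t i : F) • A i) ∈ ρ.Zt l := by
  classical
  have h1 : ∀ (k : ℕ) (i : ι), (k : F) • A i ∈ ρ.Zt l := by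
    intro k i
    induction k with
    | zero =>
      rw [Nat.cast_zero, zero_smul]
      exact gn_zero ρ l
    | succ k ih =>
      rw [Nat.cast_succ, add_smul, one_smul]
      exact Zt_add ρ l hl hl0 ih (hA i)
  induction w using Finset.induction_on with
  | empty =>
    rw [Finset.sum_empty]
    exact gn_zero ρ l
  | insert a w ha ih =>
    rw [Finset.sum_insert ha]
    exact Zt_add ρ l hl hl0 (h1 (t a) a) ih

omit [IsUltrametricDist F] [CompleteSpace F] [CharZero F] [IsTopologicalGroup Γ]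
  [CompactSpace Γ] in
private theorem gn_mult {ι : Type} [Fintype ι] (A : ι → Matrix I I F) (t v : ι → F)
    (hA : ∀ i, (A i)ᵀ * ρ.J + ρ.J * A i = t i • ρ.J) :
    (∑ i, v i • A i)ᵀ * ρ.J + ρ.J * (∑ i, v i • A i) = (∑ i, v i * t i) • ρ.J := by
  rw [Matrix.transpose_sum, Finset.sum_mul, Finset.mul_sum, ← Finset.sum_add_distrib,
    Finset.sum_smul]
  refine Finset.sum_congr rfl fun i _ => ?_
  rw [Matrix.transpose_smul, Matrix.smul_mul, Matrix.mul_smul, ← smul_add, hA i, smul_smul]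

omit [IsUltrametricDist F] [CompleteSpace F] [IsTopologicalGroup Γ] [CompactSpace Γ] in
/-- the value of the generic combination at the coordinates of an element of the Lie algebra -/
private theorem gn_value {ι : Type} [Fintype ι] (A : ι → Matrix I I F) (t v : ι → F)
    (hA : ∀ i, (A i)ᵀ * ρ.J + ρ.J * A i = t i • ρ.J) {X : Matrix I I F} (hX : X ∈ spJ ρ.J) {s : F}
    (hs : ∑ i, v i • A i = X + s • (1 : Matrix I I F)) :
    ∑ j, v j • A j - ((∑ j, v j * t j) / 2) • (1 : Matrix I I F) = X := by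
  rcases isEmpty_or_nonempty I with hI | hI
  · exact Subsingleton.elim _ _
  have hJ : ρ.J ≠ 0 := by
    intro h
    have h1 := ρ.det
    rw [h, Matrix.det_zero] at h1
    exact h1 rfl
  have h1 := gn_mult ρ A t v hA
  rw [hs, Matrix.transpose_add, Matrix.add_mul, Matrix.mul_add, Matrix.transpose_smul,
    Matrix.transpose_one, Matrix.smul_mul, Matrix.mul_smul, Matrix.one_mul, Matrix.mul_one] at h1
  have h2 : Xᵀ * ρ.J + ρ.J * X = 0 := hX
  have h3 : (2 * s) • ρ.J = (∑ i, v i * t i) • ρ.J := by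
    rw [← h1]
    calc (2 * s) • ρ.J = 0 + (s • ρ.J + s • ρ.J) := by rw [zero_add, ← add_smul]; congr 1; ring
      _ = _ := by rw [← h2]; abel
  have h4 : 2 * s = ∑ i, v i * t i := smul_left_injective F hJ h3
  rw [hs, ← h4, mul_div_cancel_left₀ s two_ne_zero, add_sub_cancel_right]

theorem exists_tangent1 (l : ℕ) [Fact l.Prime] (hl : ‖(l : F)‖ < 1) (hl0 : (l : F) ≠ 0)
    {c : Matrix I I F}
    (kb : KB (d4 c)) (k0 : KB c) (r m : ℕ)
    (h1 : ∃ X ∈ ρ.Hh l, (kb.π * d4 X * kb.ι).charpoly.coeff r ≠ 0)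
    (h2 : ∃ X ∈ ρ.Hh l, (k0.π * X * k0.ι).charpoly.coeff m ≠ 0) :
    ∃ A ∈ ρ.Zt l, ∃ t : F, Aᵀ * ρ.J + ρ.J * A = t • ρ.J ∧
      (kb.π * d4 (A - (t / 2) • (1 : Matrix I I F)) * kb.ι).charpoly.coeff r ≠ 0 ∧
      (k0.π * (A - (t / 2) • (1 : Matrix I I F)) * k0.ι).charpoly.coeff m ≠ 0 := by
  obtain ⟨X₁, ⟨hX₁, s₁, hs₁⟩, hne₁⟩ := h1
  obtain ⟨X₂, ⟨hX₂, s₂, hs₂⟩, hne₂⟩ := h2
  obtain ⟨n₁, c₁, A₁, hc₁⟩ := Submodule.mem_span_set'.mp hs₁
  obtain ⟨n₂, c₂, A₂, hc₂⟩ := Submodule.mem_span_set'.mp hs₂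
  let A : Fin n₁ ⊕ Fin n₂ → Matrix I I F := Sum.elim (fun i => A₁ i) (fun i => A₂ i)
  have hAZ : ∀ i, A i ∈ ρ.Zt l := by
    rintro (i | i)
    · exact (A₁ i).2
    · exact (A₂ i).2
  choose t ht using fun i => Zt_mult ρ l hl hl0 (hAZ i)
  have e₁ : ∑ i, (Sum.elim c₁ 0 : Fin n₁ ⊕ Fin n₂ → F) i • A i =
      X₁ + s₁ • (1 : Matrix I I F) := by
    rw [Fintype.sum_sum_type, ← hc₁]
    simp [A]
  have e₂ : ∑ i, (Sum.elim 0 c₂ : Fin n₁ ⊕ Fin n₂ → F) i • A i =
      X₂ + s₂ • (1 : Matrix I I F) := by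
    rw [Fintype.sum_sum_type, ← hc₂]
    simp [A]
  set g₁ : MvPolynomial (Fin n₁ ⊕ Fin n₂) F :=
    (kb.π.map (MvPolynomial.C : F →+* MvPolynomial (Fin n₁ ⊕ Fin n₂) F) * d4 (gnY A t) *
      kb.ι.map (MvPolynomial.C : F →+* MvPolynomial (Fin n₁ ⊕ Fin n₂) F)).charpoly.coeff r
    with hg₁
  set g₂ : MvPolynomial (Fin n₁ ⊕ Fin n₂) F :=
    (k0.π.map (MvPolynomial.C : F →+* MvPolynomial (Fin n₁ ⊕ Fin n₂) F) * gnY A t *
      k0.ι.map (MvPolynomial.C : F →+* MvPolynomial (Fin n₁ ⊕ Fin n₂) F)).charpoly.coeff m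
    with hg₂
  have h₁ : g₁ ≠ 0 := by
    intro h0
    have h3 := gn_coeff kb r (gnY A t) (Sum.elim c₁ 0)
    rw [← hg₁, h0, map_zero, gnY_map, gn_value ρ A t _ ht hX₁ e₁] at h3
    exact hne₁ h3.symm
  have h₂ : g₂ ≠ 0 := by
    intro h0
    have h3 := gn_coeff0 k0 m (gnY A t) (Sum.elim 0 c₂)
    rw [← hg₂, h0, map_zero, gnY_map, gn_value ρ A t _ ht hX₂ e₂] at h3
    exact hne₂ h3.symm
  obtain ⟨u, hu⟩ := exists_nat (g₁ * g₂) (mul_ne_zero h₁ h₂)
  rw [map_mul, hg₁, hg₂, gn_coeff, gn_coeff0, gnY_map] at hu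
  exact ⟨∑ i, (u i : F) • A i, gn_sum ρ l hl hl0 Finset.univ A hAZ u, ∑ i, (u i : F) * t i,
    gn_mult ρ A t _ ht, left_ne_zero_of_mul hu, right_ne_zero_of_mul hu⟩

end Pool.Agent.Lib.MP_640417_ag.Uni
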