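import Pool.Agent.Lib.MP_640417_ag.Gn.Low
import Pool.Agent.Lib.MP_640417_ag.Uni.Defs
import Pool.Agent.Lib.MP_640417_ag.Dt.Base

/-!
# MP_640417_ag, Uni, module LowM (200 lines): the minimal dimension on the kernel of `c`, the trace form

* `low_m`: exactly as `low_r` in `Gn/Low.lean` (copy its proof and its auxiliary lemmas) with `X` in the place of `d4 X` and `k0` in the
  place of `kb`: let `m` be the smallest number such that the coefficient of degree `m` of the characteristic polynomial of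
  `π X ι` is not zero for some `X ∈ Hh`. For `X` in the `K`-span of `Hh` the coefficients of degree `< m` vanish. Let `X` over `K` be skew and
  commute with all `b.map`: it is a `K`-combination of solutions over `F` (`span_of_eq`), by `hL` `X = X' + Z`, `X'` in the `K`-span of `Hh`,
  `Z` in the `K`-span of `Zm`; `Z = 0` on the kernel of `c.map` (`hcc`), so `N1 c X = N1 c X'`, and `le_nul` for `k0.map K`.
* `nd_lef`: `X` is a `K`-combination of matrices over `F` which are skew and commute with the commutant (`span_of_eq` as above), so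
  by `hL` it is in `HpK ρ l K` (`Dt/Base.lean`). All elements `Y` of `HpK ρ l K` are skew and commute with the commutant
  (`hpk_skew`, `hpk_comm`), so `tr (X Y) = 0` for them, and `hpk_nondeg` gives `X = 0`.
* `span_lef`: the first step alone: `X` is in the `K`-span of the images of the matrices `Y` with `LefM ρ Y`.
-/

set_option autoImplicit false

namespace Pool.Agent.Lib.MP_640417_ag.Uni

open Matrix Pool.Agent.Lib.MP_640417_ag.Glob Pool.Agent.Lib.MP_640417_ag.Ctl
  Pool.Agent.Lib.MP_640417_ag.Ty Pool.Agent.Lib.MP_640417_ag.Gn Pool.Agent.Lib.MP_640417_ag.Dt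

section aux

variable {F : Type} [Field F] {K : Type} [Field K] [Algebra F K] {I : Type} [Fintype I]
  [DecidableEq I]

omit [DecidableEq I] in
private theorem mulMap {S S' : Type} [CommRing S] [CommRing S'] (φ : S →+* S') {P Q T : Type}
    [Fintype Q] (M : Matrix P Q S) (N : Matrix Q T S) : (M * N).map φ = M.map φ * N.map φ := by
  ext i j
  simp only [Matrix.map_apply, Matrix.mul_apply, map_sum, map_mul]

/-- the generic combination -/
private noncomputable def gY (K : Type) [Field K] [Algebra F K] {n : ℕ} (B : Fin n → Matrix I I F) :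
    Matrix I I (MvPolynomial (Fin n) K) :=
  Matrix.of fun p q => ∑ k, MvPolynomial.X k * MvPolynomial.C (algebraMap F K (B k p q))

omit [Fintype I] [DecidableEq I] in
private theorem gY_map {n : ℕ} (B : Fin n → Matrix I I F) (v : Fin n → K) :
    (gY K B).map (MvPolynomial.eval v) = ∑ k, v k • (B k).map (algebraMap F K) := by
  ext p q
  simp only [gY, Matrix.map_apply, Matrix.of_apply, Matrix.sum_apply, Matrix.smul_apply,
    smul_eq_mul, map_sum, map_mul, MvPolynomial.eval_X, MvPolynomial.eval_C]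

omit [Fintype I] [DecidableEq I] in
private theorem sum_map {n : ℕ} (B : Fin n → Matrix I I F) (v : Fin n → F) :
    (∑ k, v k • B k).map (algebraMap F K) =
      ∑ k, algebraMap F K (v k) • (B k).map (algebraMap F K) := by
  ext p q
  simp only [Matrix.map_apply, Matrix.sum_apply, Matrix.smul_apply, smul_eq_mul, map_sum, map_mul]

omit [DecidableEq I] in
private theorem cf_map {S S' : Type} [Field S] [CommRing S'] {n : ℕ} (φ : S →+* S')
    (π : Matrix (Fin n) I S) (ι : Matrix I (Fin n) S) (j : ℕ)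
    (X : Matrix I I S) :
    φ ((π * X * ι).charpoly.coeff j) =
      (π.map φ * X.map φ * ι.map φ).charpoly.coeff j := by
  rw [← mulMap, ← mulMap, Matrix.charpoly_map, Polynomial.coeff_map]

omit [DecidableEq I] in
private theorem cf_eval {n m : ℕ} (π : Matrix (Fin m) I K)
    (ι : Matrix I (Fin m) K) (j : ℕ) (Y : Matrix I I (MvPolynomial (Fin n) K))
    (v : Fin n → K) :
    MvPolynomial.eval v ((π.map (MvPolynomial.C : K →+* MvPolynomial (Fin n) K) * Y *
      ι.map (MvPolynomial.C : K →+* MvPolynomial (Fin n) K)).charpoly.coeff j) =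
      (π * (Y.map (MvPolynomial.eval v)) * ι).charpoly.coeff j := by
  have hc : ∀ {P Q : Type} (M : Matrix P Q K),
      (M.map (MvPolynomial.C : K →+* MvPolynomial (Fin n) K)).map (MvPolynomial.eval v) = M := by
    intro P Q M
    ext i j
    rw [Matrix.map_apply, Matrix.map_apply, MvPolynomial.eval_C]
  rw [← Polynomial.coeff_map, ← Matrix.charpoly_map, mulMap, mulMap, hc, hc]

omit [DecidableEq I] in
/-- coefficients which vanish on a subspace vanish on its span over the extension -/
private theorem cf_span [CharZero K] {m : ℕ} (π : Matrix (Fin m) I F)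
    (ι : Matrix I (Fin m) F) (j : ℕ) (L : Submodule F (Matrix I I F))
    (h : ∀ X ∈ L, (π * X * ι).charpoly.coeff j = 0) (X : Matrix I I K)
    (hX : X ∈ Submodule.span K {Y : Matrix I I K | ∃ B ∈ L, Y = B.map (algebraMap F K)}) :
    (π.map (algebraMap F K) * X * ι.map (algebraMap F K)).charpoly.coeff j = 0 := by
  classical
  obtain ⟨n, c, g, hg⟩ := Submodule.mem_span_set'.1 hX
  choose B hB hB' using fun i => (g i).2
  have hY : (gY K B).map (MvPolynomial.eval c) = X := by
    rw [gY_map, ← hg]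
    exact Finset.sum_congr rfl fun k _ => by rw [hB' k]
  by_contra hne
  rw [← hY, ← cf_eval] at hne
  have hne0 : (((π.map (algebraMap F K)).map (MvPolynomial.C : K →+* MvPolynomial (Fin n) K) *
      (gY K B) * (ι.map (algebraMap F K)).map
        (MvPolynomial.C : K →+* MvPolynomial (Fin n) K)).charpoly.coeff j) ≠ 0 := by
    intro h0
    rw [h0, map_zero] at hne
    exact hne rfl
  obtain ⟨t, ht⟩ := exists_nat _ hne0
  rw [cf_eval, gY_map] at ht
  have h3 := sum_map (K := K) B (fun i => (t i : F))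
  simp only [map_natCast] at h3
  rw [← h3, ← cf_map, h _ (Submodule.sum_mem _ fun k _ => Submodule.smul_mem _ _ (hB k)),
    map_zero] at ht
  exact ht rfl

private theorem eq1 {S : Type} [CommRing S] (J X : Matrix I I S) (i j : I) :
    ∑ p, ∑ q, ((if q = i then J p j else 0) + (if q = j then J i p else 0)) * X p q =
      (Xᵀ * J + J * X) i j := by
  rw [Matrix.add_apply, Matrix.mul_apply, Matrix.mul_apply, ← Finset.sum_add_distrib]
  refine Finset.sum_congr rfl fun p _ => ?_
  simp only [add_mul, Finset.sum_add_distrib, ite_mul, zero_mul, Finset.sum_ite_eq',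
    Finset.mem_univ, if_true, Matrix.transpose_apply]
  ring

private theorem eq2 {S : Type} [CommRing S] (b X : Matrix I I S) (i j : I) :
    ∑ p, ∑ q, ((if p = i then b q j else 0) - (if q = j then b i p else 0)) * X p q =
      (X * b - b * X) i j := by
  rw [Matrix.sub_apply, Matrix.mul_apply, Matrix.mul_apply]
  have h1 : ∀ p, ∑ q, ((if p = i then b q j else 0) - (if q = j then b i p else 0)) * X p q =
      (if p = i then ∑ q, b q j * X p q else 0) - b i p * X p j := by
    intro p
    simp only [sub_mul, Finset.sum_sub_distrib, ite_mul, zero_mul, Finset.sum_ite_eq',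
      Finset.mem_univ, if_true]
    congr 1
    split_ifs
    · rfl
    · simp
  simp only [h1, Finset.sum_sub_distrib, Finset.sum_ite_eq', Finset.mem_univ, if_true]
  congr 1
  refine Finset.sum_congr rfl fun q _ => ?_
  ring

omit [DecidableEq I] in
/-- solutions over `K` of linear equations over `F` are spanned by solutions over `F` -/
private theorem spanEq (E : Set (Matrix I I F)) (X0 : Matrix I I K)
    (h : ∀ a ∈ E, ∑ i, ∑ j, algebraMap F K (a i j) * X0 i j = 0) :
    X0 ∈ Submodule.span K {Y : Matrix I I K | ∃ A : Matrix I I F,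
      (∀ a ∈ E, ∑ i, ∑ j, a i j * A i j = 0) ∧ Y = A.map (algebraMap F K)} := by
  classical
  let κ := Module.Basis.ofVectorSpace F K
  let s : Finset (Module.Basis.ofVectorSpaceIndex F K) :=
    Finset.univ.biUnion fun p : I × I => (κ.repr (X0 p.1 p.2)).support
  have hX : X0 = ∑ k ∈ s, κ k • (Matrix.of fun i j => κ.repr (X0 i j) k).map (algebraMap F K) := by
    ext i j
    rw [Matrix.sum_apply]
    have h1 : X0 i j = ∑ k ∈ s, κ.repr (X0 i j) k • κ k := by
      conv_lhs => rw [← κ.linearCombination_repr (X0 i j), Finsupp.linearCombination_apply]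
      apply Finsupp.sum_of_support_subset
      · intro k hk
        exact Finset.mem_biUnion.2 ⟨(i, j), Finset.mem_univ _, hk⟩
      · intro k _
        rw [zero_smul]
    refine h1.trans (Finset.sum_congr rfl fun k _ => ?_)
    rw [Matrix.smul_apply, Matrix.map_apply, Matrix.of_apply, smul_eq_mul, Algebra.smul_def,
      mul_comm]
  rw [hX]
  refine Submodule.sum_mem _ fun k _ => Submodule.smul_mem _ _ (Submodule.subset_span ?_)
  refine ⟨_, fun a ha => ?_, rfl⟩
  have h2 := congrArg (fun x => κ.repr x k) (h a ha)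
  simp only [map_zero, Finsupp.coe_zero, Pi.zero_apply] at h2
  rw [← h2]
  simp only [map_sum, Finsupp.coe_finsetSum, Finset.sum_apply]
  refine Finset.sum_congr rfl fun i _ => Finset.sum_congr rfl fun j _ => ?_
  rw [← Algebra.smul_def, map_smul, Finsupp.smul_apply, smul_eq_mul, Matrix.of_apply]

/-- skew elements over the extension which commute with `C` -/
private theorem skew_span (J : Matrix I I F) (C : Set (Matrix I I F)) (X0 : Matrix I I K)
    (hs : X0ᵀ * J.map (algebraMap F K) + J.map (algebraMap F K) * X0 = 0)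
    (hC : ∀ b ∈ C, X0 * b.map (algebraMap F K) = b.map (algebraMap F K) * X0) :
    X0 ∈ Submodule.span K {Y : Matrix I I K | ∃ X : Matrix I I F, (Xᵀ * J + J * X = 0 ∧
      ∀ b ∈ C, X * b = b * X) ∧ Y = X.map (algebraMap F K)} := by
  classical
  let E : Set (Matrix I I F) :=
    {a | ∃ i j, a = Matrix.of fun p q => (if q = i then J p j else 0) + (if q = j then J i p else 0)} ∪
    {a | ∃ b ∈ C, ∃ i j, a = Matrix.of fun p q =>
      (if p = i then b q j else 0) - (if q = j then b i p else 0)}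
  have hE : ∀ a ∈ E, ∑ i, ∑ j, algebraMap F K (a i j) * X0 i j = 0 := by
    rintro a (⟨i, j, rfl⟩ | ⟨b, hb, i, j, rfl⟩)
    · have h3 := eq1 (J.map (algebraMap F K)) X0 i j
      rw [hs, Matrix.zero_apply] at h3
      rw [← h3]
      refine Finset.sum_congr rfl fun p _ => Finset.sum_congr rfl fun q _ => ?_
      simp only [Matrix.of_apply, map_add, Matrix.map_apply]
      congr 2 <;> split_ifs <;> simp
    · have h3 := eq2 (b.map (algebraMap F K)) X0 i j
      rw [hC b hb, sub_self, Matrix.zero_apply] at h3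
      rw [← h3]
      refine Finset.sum_congr rfl fun p _ => Finset.sum_congr rfl fun q _ => ?_
      simp only [Matrix.of_apply, map_sub, Matrix.map_apply]
      congr 2 <;> split_ifs <;> simp
  refine Submodule.span_mono ?_ (spanEq E X0 hE)
  rintro Y ⟨B, hB, rfl⟩
  refine ⟨B, ⟨?_, fun b hb => ?_⟩, rfl⟩
  · ext i j
    rw [← eq1, Matrix.zero_apply]
    exact hB _ (Or.inl ⟨i, j, rfl⟩)
  · rw [← sub_eq_zero]
    ext i j
    rw [← eq2, Matrix.zero_apply]
    exact hB _ (Or.inr ⟨b, hb, i, j, rfl⟩)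

/-- the generalized kernels agree -/
private theorem N1_eq {c X Z R' : Matrix I I K}
    (hXc : c * X = X * c) (hZ : Z = R' * c) : N1 c (X + Z) = N1 c X := by
  have hst : ∀ (m : ℕ) (v : I → K), c *ᵥ v = 0 →
      (X + Z) ^ m *ᵥ v = X ^ m *ᵥ v ∧ c *ᵥ (X ^ m *ᵥ v) = 0 := by
    intro m
    induction m with
    | zero =>
      intro v hv
      rw [pow_zero, pow_zero, Matrix.one_mulVec]
      exact ⟨rfl, hv⟩
    | succ m ih =>
      intro v hv
      obtain ⟨h1, h2⟩ := ih v hv
      have h3 : Z *ᵥ (X ^ m *ᵥ v) = 0 := by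
        rw [hZ, ← Matrix.mulVec_mulVec, h2, Matrix.mulVec_zero]
      constructor
      · rw [pow_succ', ← Matrix.mulVec_mulVec, h1, Matrix.add_mulVec, h3, add_zero,
          pow_succ', Matrix.mulVec_mulVec]
      · rw [pow_succ', ← Matrix.mulVec_mulVec, Matrix.mulVec_mulVec, hXc,
          ← Matrix.mulVec_mulVec, h2, Matrix.mulVec_zero]
  have hpow : ∀ (A : Matrix I I K) (m : ℕ)
      (v : I → K), ((Matrix.toLin' A - (0 : K) •
        (1 : Module.End K (I → K)) : Module.End K (I → K)) ^ m) v =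
        A ^ m *ᵥ v := by
    intro A m v
    rw [zero_smul, sub_zero, ← Matrix.toLin'_pow, Matrix.toLin'_apply]
  ext v
  simp only [N1, Submodule.mem_inf, LinearMap.mem_ker, Module.End.mem_maxGenEigenspace, hpow,
    Matrix.toLin'_apply]
  constructor
  · rintro ⟨⟨k, hk⟩, hv⟩
    exact ⟨⟨k, by rw [← (hst k v hv).1]; exact hk⟩, hv⟩
  · rintro ⟨⟨k, hk⟩, hv⟩
    exact ⟨⟨k, by rw [(hst k v hv).1]; exact hk⟩, hv⟩

end aux

variable {F : Type} [NontriviallyNormedField F] [IsUltrametricDist F] [CompleteSpace F] [CharZero F]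
  {I : Type} [Fintype I] [DecidableEq I] {Γ : Type} [Group Γ] [TopologicalSpace Γ]
  [IsTopologicalGroup Γ] [CompactSpace Γ] (ρ : MRep Γ F I)

theorem low_m (l : ℕ) (hl : ‖(l : F)‖ < 1) (hl0 : (l : F) ≠ 0) (hsemi : ρ.Semi)
    (hL : ∀ X ∈ spJ ρ.J, (∀ b, ρ.InC b → X * b = b * X) → X ∈ Hp ρ l)
    {c : Matrix I I F} (hc : c ∈ Zm ρ) (hcc : ∀ z ∈ Zm ρ, ∃ R, z = R * c) (k0 : KB c)
    (K : Type) [Field K] [Algebra F K] :
    ∃ m, (∃ X ∈ ρ.Hh l, (k0.π * X * k0.ι).charpoly.coeff m ≠ 0) ∧
      ∀ X : Matrix I I K, Xᵀ * ρ.J.map (algebraMap F K) + ρ.J.map (algebraMap F K) * X = 0 →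
        (∀ b, InCK ρ K b → X * b = b * X) →
          m ≤ Module.finrank K (N1 (c.map (algebraMap F K)) X) := by
  classical
  have hK : CharZero K := charZero_of_injective_algebraMap (algebraMap F K).injective
  have hex : ∃ r, ∃ X ∈ ρ.Hh l, (k0.π * X * k0.ι).charpoly.coeff r ≠ 0 := by
    refine ⟨(k0.π * (0 : Matrix I I F) * k0.ι).charpoly.natDegree, 0, (ρ.Hh l).zero_mem, ?_⟩
    exact Polynomial.leadingCoeff_ne_zero.2 (Matrix.charpoly_monic _).ne_zero
  refine ⟨Nat.find hex, Nat.find_spec hex, ?_⟩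
  have hmin : ∀ j < Nat.find hex, ∀ X ∈ ρ.Hh l, (k0.π * X * k0.ι).charpoly.coeff j = 0 := by
    intro j hj X hX
    by_contra hne
    exact Nat.find_min hex hj ⟨X, hX, hne⟩
  generalize Nat.find hex = r at hmin
  intro X hXs hXC
  have h1 := skew_span (K := K) ρ.J {b | ρ.InC b} X hXs fun b hb =>
    hXC _ (inCK_map ρ K hb)
  have h2 : X ∈ Submodule.span K {Y : Matrix I I K | ∃ B ∈ ρ.Hh l, Y = B.map (algebraMap F K)} ⊔
      Submodule.span K {Y : Matrix I I K | ∃ B ∈ Zm ρ, Y = B.map (algebraMap F K)} := by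
    refine (Submodule.span_le.2 ?_) h1
    rintro Y ⟨B, ⟨hB1, hB2⟩, rfl⟩
    obtain ⟨a, ha, z, hz, rfl⟩ := Submodule.mem_sup.1 (hL B hB1 hB2)
    have h3 : (a + z).map (algebraMap F K) = a.map (algebraMap F K) + z.map (algebraMap F K) := by
      ext p q
      simp
    rw [h3]
    exact Submodule.add_mem_sup (Submodule.subset_span ⟨a, ha, rfl⟩)
      (Submodule.subset_span ⟨z, hz, rfl⟩)
  obtain ⟨X', hX', Z, hZ, rfl⟩ := Submodule.mem_sup.1 h2
  have hXc : c.map (algebraMap F K) * X' = X' * c.map (algebraMap F K) := by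
    clear hXs hXC h1 h2
    induction hX' using Submodule.span_induction with
    | mem x hx =>
      obtain ⟨b, hb, rfl⟩ := hx
      rw [← Matrix.map_mul, ← Hh_comm_C ρ l hl hl0 hb hc.1, Matrix.map_mul]
    | zero => rw [Matrix.mul_zero, Matrix.zero_mul]
    | add x y _ _ hx hy => rw [Matrix.mul_add, Matrix.add_mul, hx, hy]
    | smul s x _ hx => rw [Matrix.mul_smul, Matrix.smul_mul, hx]
  have hZd : ∃ R', Z = R' * c.map (algebraMap F K) := by
    clear hXs hXC h1 h2
    induction hZ using Submodule.span_induction with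
    | mem x hx =>
      obtain ⟨b, hb, rfl⟩ := hx
      obtain ⟨R, hR⟩ := hcc b hb
      exact ⟨R.map (algebraMap F K), by rw [hR, mulMap]⟩
    | zero => exact ⟨0, by rw [Matrix.zero_mul]⟩
    | add x y _ _ hx hy =>
      obtain ⟨R1, hR1⟩ := hx
      obtain ⟨R2, hR2⟩ := hy
      exact ⟨R1 + R2, by rw [hR1, hR2, Matrix.add_mul]⟩
    | smul s x _ hx =>
      obtain ⟨R1, hR1⟩ := hx
      exact ⟨s • R1, by rw [hR1, Matrix.smul_mul]⟩
  obtain ⟨R', hR'⟩ := hZd
  rw [N1_eq hXc hR']
  exact le_nul (k0.map K) hXc (m := r) (fun j hj =>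
    cf_span k0.π k0.ι j (ρ.Hh l) (hmin j hj) X' hX')

theorem nd_lef (l : ℕ) (hl : ‖(l : F)‖ < 1) (hl0 : (l : F) ≠ 0) (hsemi : ρ.Semi)
    (hL : ∀ X ∈ spJ ρ.J, (∀ b, ρ.InC b → X * b = b * X) → X ∈ Hp ρ l)
    (K : Type) [Field K] [Algebra F K] {X : Matrix I I K}
    (hX : Xᵀ * ρ.J.map (algebraMap F K) + ρ.J.map (algebraMap F K) * X = 0)
    (hXC : ∀ b, InCK ρ K b → X * b = b * X)
    (h : ∀ Y : Matrix I I K, Yᵀ * ρ.J.map (algebraMap F K) + ρ.J.map (algebraMap F K) * Y = 0 →
      (∀ b, InCK ρ K b → Y * b = b * Y) → Matrix.trace (X * Y) = 0) : X = 0 := by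
  have h1 := skew_span (K := K) ρ.J {b | ρ.InC b} X hX fun b hb =>
    hXC _ (inCK_map ρ K hb)
  have h2 : X ∈ HpK ρ l K := by
    refine (Submodule.span_le.2 ?_) h1
    rintro Y ⟨B, ⟨hB1, hB2⟩, rfl⟩
    exact Submodule.subset_span ⟨B, hL B hB1 hB2, rfl⟩
  exact hpk_nondeg ρ l hl hl0 K hsemi X h2 fun Y hY =>
    h Y (hpk_skew ρ l hl hl0 K hY) fun b hb => hpk_comm ρ l hl hl0 K hY hb

omit [IsUltrametricDist F] [CompleteSpace F] [CharZero F] [IsTopologicalGroup Γ]
  [CompactSpace Γ] in
theorem span_lef (K : Type) [Field K] [Algebra F K] {X : Matrix I I K}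
    (hX : Xᵀ * ρ.J.map (algebraMap F K) + ρ.J.map (algebraMap F K) * X = 0)
    (hXC : ∀ b, InCK ρ K b → X * b = b * X) :
    X ∈ Submodule.span K {X : Matrix I I K | ∃ Y, LefM ρ Y ∧ X = Y.map (algebraMap F K)} := by
  have h1 := skew_span (K := K) ρ.J {b | ρ.InC b} X hX fun b hb =>
    hXC _ (inCK_map ρ K hb)
  refine Submodule.span_mono ?_ h1
  rintro Y ⟨B, ⟨hB1, hB2⟩, rfl⟩
  exact ⟨B, ⟨hB1, hB2⟩, rfl⟩

end Pool.Agent.Lib.MP_640417_ag.Uni
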