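import Pool.Agent.Lib.MP_640417_ag.Uni.Defs
import Pool.Agent.Lib.MP_640417_ag.Uni.LowM
import Pool.Agent.Lib.MP_640417_ag.Gn.GoodD
import Pool.Agent.Lib.MP_640417_ag.Dt.MainD
import Pool.Agent.Lib.MP_640417_ag.Uni.CenQ

/-!
# MP_640417_ag, Uni, module GoodD1 (300 lines): `GoodM1` implies `DetectsM1`

`g = (M γ).map`, `J' = J.map`, `c` from `exists_cc`, `D : WDec J' g c.map μ'` from `exists_wdec` (as in `mem_of_detects`, `Dt/MainD.lean`),
`C = cK ρ K`. For every `a`: `exists_kap` (`Dt/Wts.lean`) gives `κ_a` with `z.map ε_a = κ_a z • ε_a` for `z ∈ Zm`, and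
`wt_eq`: `WtM (z a) κ_a = range ε_a ≠ ⊥`. `(z a, κ_a)` is its own dual if and only if `st a = a` (`D.zdual`, `D.kdual`, `D.star` and
`adj` of `z.map` for `⇐`, see `isoI_of`; `D.inj` for `⇒`). A vector of a weight space `(z, κ)` which is not self-dual is in the range of
some `ε_b` with `st b ≠ b` (`D.mem`). So for a matrix `Y`: if `Y ε_b = 0` for all `b` with `st b ≠ b` then `Y` is zero on all weight spaces
which are not self-dual, and (`h.2.2`, `span_lef` of `Uni/LowM.lean`): (*) if moreover `Y` is skew and commutes with `C` then `Y = 0`.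
1. `g ε_a = z_a ε_a` for all `a`. If `st a ≠ a`: the kernel of `g - z_a` in the range of `ε_a` is stable under `C` and not zero
   (`D.nil`), so everything (isolated weights are irreducible; see `goodD_scalar` in `Gn/GoodD.lean`). If `st a = a`: `z_a^2 = μ'`; let
   `Y = z_a⁻¹ g ε_a - z_a g⁻¹ ε_a`. `adj J' g = μ' g⁻¹` (from `gᵀ J' g = μ' J'`), `adj J' ε_a = ε_a`, `g` commutes with `ε_a`, so
   `adj J' (z_a⁻¹ g ε_a) = z_a g⁻¹ ε_a` and `Y` is skew; it commutes with `C`, and `Y ε_b = 0` for `b ≠ a`. By (*) `Y = 0`,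
   `(g^2 - z_a^2) ε_a = 0`; `(g + z_a) ε_a` is invertible on the range of `ε_a` (`(g - z_a) ε_a` is nilpotent, `2 z_a ≠ 0`), so
   `(g - z_a) ε_a = 0`. So `K^I` is spanned by eigenvectors and `g` is semisimple (as in `Gn/GoodD.lean`).
2. Let `b0 ∈ C` vanish on all isolated weight spaces, so `b0 ε_a = 0` for all `a` with `st a ≠ a`. `exists_cenq` (`Uni/CenQ.lean`; index set
   `{a // st a ≠ a}`, `σ = st`, `ldata` of `Dt/MainD.lean`) gives `q ∈ C` with `q ε_a = 0` for these `a`, `adj J' q = q`, commuting with `C`,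
   and `b0 q = b0`.
3. Let `X` be in the Lefschetz Lie algebra, `X' = X.map`. `X' q = q X'` is skew, commutes with `C`, `X' q ε_a = 0` for `st a ≠ a`. By (*)
   `X' q = 0`, and `b0 X' = b0 q X' = b0 X' q = 0`.
-/

set_option autoImplicit false

namespace Pool.Agent.Lib.MP_640417_ag.Uni

open Matrix Module Pool.Agent.Lib.MP_640417_ag.Glob Pool.Agent.Lib.MP_640417_ag.Ctl
  Pool.Agent.Lib.MP_640417_ag.Ty Pool.Agent.Lib.MP_640417_ag.Gn Pool.Agent.Lib.MP_640417_ag.Dt

section alg

variable {K : Type} [Field K] {I : Type} [Fintype I] [DecidableEq I]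

/-- a power of `g - z a` is zero on the range of `ε a` -/
private theorem gd_nil {J g c : Matrix I I K} {μ : K} (D : WDec J g c μ) (a : Fin D.n) :
    ∃ m : ℕ, (g - D.z a • (1 : Matrix I I K)) ^ m * D.ε a = 0 := by
  obtain ⟨m, hm⟩ := D.nil a
  have hεg : D.ε a * g = g * D.ε a := (D.comm a g rfl D.cg.symm).symm
  have hcomm : Commute (g - D.z a • (1 : Matrix I I K)) (D.ε a) := by
    show _ * _ = _ * _
    rw [sub_mul, mul_sub, hεg, smul_mul_assoc, mul_smul_comm, one_mul, mul_one]
  have hεp : ∀ m : ℕ, D.ε a ^ m * D.ε a = D.ε a := by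
    intro m
    induction m with
    | zero => rw [pow_zero, one_mul]
    | succ m ih => rw [pow_succ, mul_assoc, D.idem, ih]
  refine ⟨m, ?_⟩
  have h1 : ((g - D.z a • (1 : Matrix I I K)) * D.ε a) ^ m * D.ε a = 0 := by
    rw [hm, zero_mul]
  rw [hcomm.mul_pow, mul_assoc, hεp] at h1
  exact h1

omit [DecidableEq I] in
/-- `ε a` is not zero, so there is a nonzero vector in its range -/
private theorem gd_vec {e : Matrix I I K} (hee : e * e = e) (he : e ≠ 0) :
    ∃ w : I → K, w ≠ 0 ∧ e *ᵥ w = w := by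
  by_contra hcon
  apply he
  refine Matrix.ext_iff_mulVec.mpr fun w => ?_
  rw [Matrix.zero_mulVec]
  by_contra hw
  exact hcon ⟨e *ᵥ w, hw, by rw [Matrix.mulVec_mulVec, hee]⟩

/-- a matrix which commutes with `C` and `ε a` is a scalar on the range of `ε a` if this is irreducible -/
private theorem gd_scalar [IsAlgClosed K] (C : Subalgebra K (Matrix I I K)) {e y : Matrix I I K}
    (hee : e * e = e) (he0 : e ≠ 0) (hy : Cm C y) (hye : y * e = e * y) (he : Cm C e)
    (hirr : Irr C e) : ∃ s : K, y * e = s • e := by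
  classical
  obtain ⟨w, hw, hew⟩ := gd_vec hee he0
  set W := LinearMap.range (Matrix.toLin' e) with hW
  have hmemW : ∀ v, v ∈ W ↔ e *ᵥ v = v := by
    intro v
    constructor
    · rintro ⟨u, rfl⟩
      rw [Matrix.toLin'_apply, Matrix.mulVec_mulVec, hee]
    · intro h
      exact ⟨v, by rw [Matrix.toLin'_apply, h]⟩
  have hyW : ∀ v ∈ W, Matrix.toLin' y v ∈ W := by
    intro v hv
    rw [hmemW] at hv ⊢
    rw [Matrix.toLin'_apply, Matrix.mulVec_mulVec, ← hye, ← Matrix.mulVec_mulVec, hv]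
  have : Nontrivial W := ⟨⟨w, (hmemW w).2 hew⟩, 0, by
    intro h
    exact hw (congrArg Subtype.val h)⟩
  obtain ⟨s, hs⟩ := Module.End.exists_eigenvalue ((Matrix.toLin' y).restrict hyW)
  obtain ⟨v, hv⟩ := hs.exists_hasEigenvector
  have hv1 := hv.apply_eq_smul
  have hv2 : y *ᵥ (v : I → K) = s • (v : I → K) := by
    have h1 := congrArg Subtype.val hv1
    rw [LinearMap.coe_restrict_apply, Matrix.toLin'_apply] at h1
    exact h1
  have hv0 : (v : I → K) ≠ 0 := fun h => hv.2 (Subtype.ext h)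
  refine ⟨s, ?_⟩
  let E : Submodule K (I → K) := W ⊓ Module.End.eigenspace (Matrix.toLin' y) s
  have hE1 : ∀ b ∈ C, ∀ v ∈ E, b *ᵥ v ∈ E := by
    rintro b hb v ⟨hv1, hv2⟩
    refine ⟨?_, ?_⟩
    · rw [SetLike.mem_coe, hmemW] at hv1 ⊢
      rw [Matrix.mulVec_mulVec, he b hb, ← Matrix.mulVec_mulVec, hv1]
    · rw [SetLike.mem_coe, Module.End.mem_eigenspace_iff, Matrix.toLin'_apply] at hv2 ⊢
      rw [Matrix.mulVec_mulVec, hy b hb, ← Matrix.mulVec_mulVec, hv2, Matrix.mulVec_smul]
  have hE2 : ∀ v ∈ E, e *ᵥ v = v := fun v hv => (hmemW v).1 hv.1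
  have hvE : (v : I → K) ∈ E := by
    refine ⟨v.2, ?_⟩
    rw [SetLike.mem_coe, Module.End.mem_eigenspace_iff, Matrix.toLin'_apply]
    exact hv2
  rcases hirr E hE2 hE1 with h | h
  · exfalso
    rw [h] at hvE
    exact hv0 hvE
  · refine Matrix.ext_iff_mulVec.mpr fun u => ?_
    have h2 := (h u).2
    rw [SetLike.mem_coe, Module.End.mem_eigenspace_iff, Matrix.toLin'_apply] at h2
    rw [← Matrix.mulVec_mulVec, h2, Matrix.smul_mulVec]

/-- the scalar is the eigenvalue -/
private theorem gd_val {J g c : Matrix I I K} {μ : K} (D : WDec J g c μ) (a : Fin D.n) {s : K}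
    (h : g * D.ε a = s • D.ε a) : g * D.ε a = D.z a • D.ε a := by
  obtain ⟨m, hm⟩ := gd_nil D a
  have h1 : ∀ m : ℕ, (g - D.z a • (1 : Matrix I I K)) ^ m * D.ε a = (s - D.z a) ^ m • D.ε a := by
    intro m
    induction m with
    | zero => rw [pow_zero, pow_zero, one_mul, one_smul]
    | succ m ih =>
      rw [pow_succ', mul_assoc, ih, mul_smul_comm, sub_mul, h, smul_mul_assoc, one_mul,
        ← sub_smul, smul_smul, pow_succ]
  rw [h1] at hm
  have h2 : s - D.z a = 0 := by
    by_contra h3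
    rcases smul_eq_zero.mp hm with h4 | h4
    · exact pow_ne_zero m h3 h4
    · exact D.ne a h4
  rw [h, sub_eq_zero.mp h2]

/-- `g ^ 2 = z ^ 2` on the range of `ε a` implies `g = z` there -/
private theorem gd_sq [CharZero K] {J g c : Matrix I I K} {μ : K} (D : WDec J g c μ)
    (a : Fin D.n) (hz : D.z a ≠ 0) (h : g * (g * D.ε a) = (D.z a * D.z a) • D.ε a) :
    g * D.ε a = D.z a • D.ε a := by
  obtain ⟨m, hm⟩ := gd_nil D a
  set n := (g - D.z a • (1 : Matrix I I K)) * D.ε a with hn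
  have hne : n = g * D.ε a - D.z a • D.ε a := by
    rw [hn, sub_mul, smul_mul_assoc, one_mul]
  have h1 : (g - D.z a • (1 : Matrix I I K)) * n = (-(2 * D.z a)) • n := by
    rw [hne, mul_sub, mul_smul_comm, sub_mul, sub_mul, h, smul_mul_assoc, smul_mul_assoc, one_mul,
      one_mul, neg_smul, smul_sub, smul_sub, smul_smul, smul_smul]
    rw [show (2 * D.z a * D.z a) = D.z a * D.z a + D.z a * D.z a by ring,
      show (2 * D.z a) = D.z a + D.z a by ring, add_smul, add_smul]
    abel
  have h2 : ∀ k : ℕ, (g - D.z a • (1 : Matrix I I K)) ^ k * n = (-(2 * D.z a)) ^ k • n := by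
    intro k
    induction k with
    | zero => rw [pow_zero, pow_zero, one_mul, one_smul]
    | succ k ih => rw [pow_succ', mul_assoc, ih, mul_smul_comm, h1, smul_smul, pow_succ]
  have h3 : (g - D.z a • (1 : Matrix I I K)) ^ m * n = 0 := by
    rw [hn, ← mul_assoc, ← pow_succ, pow_succ', mul_assoc, hm, mul_zero]
  rw [h2 m] at h3
  have h4 : n = 0 := by
    rcases smul_eq_zero.mp h3 with h5 | h5
    · exfalso
      exact pow_ne_zero m (neg_ne_zero.mpr (mul_ne_zero two_ne_zero hz)) h5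
    · exact h5
  rw [hne] at h4
  exact sub_eq_zero.mp h4

/-- `g` is semisimple if it is a scalar on the range of every `ε a` -/
private theorem gd_ss [IsAlgClosed K] [PerfectField K] {J g c : Matrix I I K} {μ : K}
    (D : WDec J g c μ) (h : ∀ a, g * D.ε a = D.z a • D.ε a) :
    Module.End.IsSemisimple (Matrix.toLin' g) := by
  set G := Matrix.toLin' g with hG
  obtain ⟨n, hn, s, _, hnil, hs, hf⟩ := Module.End.exists_isNilpotent_isSemisimple (f := G)
  suffices h3 : n = 0 by
    rw [hf, h3, zero_add]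
    exact hs
  rw [Algebra.adjoin_singleton_eq_range_aeval] at hn
  obtain ⟨q, hq⟩ := hn
  have hq' : Polynomial.aeval G q = n := hq
  obtain ⟨k, hk⟩ := hnil
  have key : ∀ (a : Fin D.n) (v : I → K), n (D.ε a *ᵥ v) = 0 := by
    intro a v
    set y := D.ε a *ᵥ v with hy
    by_cases hy0 : y = 0
    · rw [hy0, map_zero]
    have h4 : G y = D.z a • y := by
      rw [hG, Matrix.toLin'_apply, hy, Matrix.mulVec_mulVec, h a, Matrix.smul_mulVec]
    have h6 : n y = q.eval (D.z a) • y := by
      rw [← hq']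
      exact Module.End.aeval_apply_of_hasEigenvector (μ := D.z a)
        ⟨Module.End.mem_eigenspace_iff.2 h4, hy0⟩
    have h8 : ∀ m : ℕ, (n ^ m) y = (q.eval (D.z a)) ^ m • y := by
      intro m
      induction m with
      | zero => simp
      | succ m ih =>
        rw [pow_succ', Module.End.mul_apply, ih, map_smul, h6, smul_smul, pow_succ]
    have h9 := h8 k
    rw [hk, LinearMap.zero_apply] at h9
    have h10 : q.eval (D.z a) ^ k = 0 := (smul_eq_zero.mp h9.symm).resolve_right hy0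
    have h11 : IsNilpotent (q.eval (D.z a)) := ⟨k, h10⟩
    rw [h6, h11.eq_zero, zero_smul]
  refine LinearMap.ext fun v => ?_
  have h1 : v = ∑ a, D.ε a *ᵥ v := by
    rw [← Matrix.sum_mulVec, D.sum, Matrix.one_mulVec]
  rw [h1, map_sum, LinearMap.zero_apply]
  exact Finset.sum_eq_zero fun a _ => key a v

end alg

variable {F : Type} [NontriviallyNormedField F] [IsUltrametricDist F] [CompleteSpace F] [CharZero F]
  {I : Type} [Fintype I] [DecidableEq I] {Γ : Type} [Group Γ] [TopologicalSpace Γ]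
  [IsTopologicalGroup Γ] [CompactSpace Γ] (ρ : MRep Γ F I) (K : Type) [Field K] [Algebra F K]
  [IsAlgClosed K]

theorem detects_of_good1 (l : ℕ) (hl : ‖(l : F)‖ < 1) (hl0 : (l : F) ≠ 0) (hsemi : ρ.Semi)
    (hfull : Full0 ρ) {γ : Γ} (h : GoodM1 ρ K γ) : DetectsM1 ρ K γ := by
  classical
  have hchar : CharZero K := charZero_of_injective_algebraMap (algebraMap F K).injective
  obtain ⟨c, hcz, hcc⟩ := exists_cc ρ hsemi
  have hcc1 : ∀ z ∈ Zm ρ, ∃ R, d4 z = R * d4 c := fun z hz => (hcc z hz).1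
  have L := ldata ρ l hl hl0 hsemi K
  have hcg : c.map (algebraMap F K) * (ρ.M γ).map (algebraMap F K) =
      (ρ.M γ).map (algebraMap F K) * c.map (algebraMap F K) := by
    rw [← Matrix.map_mul, ← Matrix.map_mul, h.1 c hcz.1]
  obtain ⟨D⟩ := exists_wdec (ρ.J.map (algebraMap F K)) ((ρ.M γ).map (algebraMap F K))
    (c.map (algebraMap F K)) (algebraMap F K (ρ.μ γ : F)) L.det L.alt
    ((map_ne_zero _).mpr (Units.ne_zero _)) (gK ρ γ K) (skewK ρ hcz.2.2 K) hcg
    (zm_ss ρ hsemi hcz K)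
  have hμ : algebraMap F K (ρ.μ γ : F) ≠ 0 := (map_ne_zero _).mpr (Units.ne_zero _)
  have hgJ := gK ρ γ K
  set g := (ρ.M γ).map (algebraMap F K) with hg
  set J' := ρ.J.map (algebraMap F K) with hJ'
  set μ' := algebraMap F K (ρ.μ γ : F) with hμ'
  have hCg : Cm (cK ρ K) g := fun b hb => inCK_full ρ K hfull hb γ
  have hCc : Cm (cK ρ K) (c.map (algebraMap F K)) := fun b hb => cmK ρ hcz.2.1 K hb
  have hεC : ∀ a, Cm (cK ρ K) (D.ε a) := by
    intro a b hb
    exact (D.comm a b (hCg b hb).symm (hCc b hb).symm).symm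
  have hεg : ∀ a, g * D.ε a = D.ε a * g := fun a => D.comm a g rfl D.cg.symm
  have hkap := fun a => exists_kap ρ hsemi hfull K γ hcz hcc1 D a
  choose κ hκ using hkap
  have hwt : ∀ a, WtM ρ K γ (D.z a) (κ a) = LinearMap.range (Matrix.toLin' (D.ε a)) := fun a =>
    wt_eq ρ hsemi hfull K γ hcz hcc1 D a (κ a) (hκ a)
  have hmem : ∀ a v, D.ε a *ᵥ v ∈ WtM ρ K γ (D.z a) (κ a) := by
    intro a v
    rw [hwt a]
    exact ⟨v, Matrix.toLin'_apply _ _⟩
  have hkc : ∀ a, κ a c = D.k a := by
    intro a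
    have h1 := hκ a c hcz
    rw [D.ceig, ← sub_eq_zero, ← sub_smul] at h1
    exact (sub_eq_zero.mp ((smul_eq_zero.mp h1).resolve_right (D.ne a))).symm
  have hWne : ∀ a, WtM ρ K γ (D.z a) (κ a) ≠ ⊥ := by
    intro a h1
    obtain ⟨w, hw, hw'⟩ := gd_vec (D.idem a) (D.ne a)
    have h2 := hmem a w
    rw [hw', h1] at h2
    exact hw h2
  have hz0 : ∀ a, D.z a ≠ 0 := by
    intro a h0
    have h1 := D.zdual a
    rw [h0, zero_mul] at h1
    exact hμ h1.symm
  -- self-dual weights
  have hsd1 : ∀ a, DualM ρ K γ (D.z a) (κ a) (D.z a) (κ a) → D.st a = a := by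
    rintro a ⟨h1, h2⟩
    apply D.inj
    · exact mul_left_cancel₀ (hz0 a) ((D.zdual a).trans h1.symm)
    · have h3 := h2 c hcz
      rw [hkc] at h3
      have h4 := D.kdual a
      exact add_left_cancel (h4.trans h3.symm)
  have hsd2 : ∀ a, D.st a = a → DualM ρ K γ (D.z a) (κ a) (D.z a) (κ a) := by
    intro a ha
    refine ⟨?_, fun y hy => ?_⟩
    · have h1 := D.zdual a
      rw [ha] at h1
      exact h1
    · have h1 := congrArg (adj J') (hκ a y hy)
      have h4 : adj J' (κ a y • D.ε a) = κ a y • adj J' (D.ε a) := by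
        unfold adj
        rw [Matrix.transpose_smul, mul_smul_comm, smul_mul_assoc]
      rw [adj_mul L.det, (adj_skew L.det _).mp (skewK ρ hy.2.2 K), h4, D.star, ha, mul_neg] at h1
      have h5 : y.map (algebraMap F K) * D.ε a = D.ε a * y.map (algebraMap F K) := by
        refine D.comm a _ ?_ ?_
        · rw [hg, ← Matrix.map_mul, ← Matrix.map_mul, h.1 y hy.1]
        · rw [← Matrix.map_mul, ← Matrix.map_mul, hy.2.1 c hcz.1]
      rw [← h5, hκ a y hy] at h1
      have h6 : (κ a y + κ a y) • D.ε a = 0 := by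
        rw [add_smul]
        nth_rewrite 1 [← h1]
        rw [neg_add_cancel]
      exact (smul_eq_zero.mp h6).resolve_right (D.ne a)
  -- an element of the Lefschetz Lie algebra which vanishes on the other weight spaces is zero
  have star : ∀ Y : Matrix I I K, Yᵀ * J' + J' * Y = 0 → Cm (cK ρ K) Y →
      (∀ a, D.st a ≠ a → Y * D.ε a = 0) → Y = 0 := by
    intro Y hY hYC hY0
    refine h.2.2 Y (span_lef ρ K hY (fun b hb => hYC b hb)) fun z κ' hnd y hy => ?_
    by_cases hy0 : y = 0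
    · rw [hy0, Matrix.mulVec_zero]
    have hy' : ∀ x ∈ Zm ρ, x.map (algebraMap F K) *ᵥ y = κ' x • y := by
      intro x hx
      have h1 := hy.2
      rw [SetLike.mem_coe, Submodule.mem_iInf] at h1
      have h2 := h1 ⟨x, hx⟩
      rw [Module.End.mem_eigenspace_iff, Matrix.toLin'_apply] at h2
      exact h2
    obtain ⟨b, hb1, hb2, hb3⟩ := D.mem hy0 hy.1 (hy' c hcz)
    have hb : D.st b ≠ b := by
      intro hb
      apply hnd
      obtain ⟨h1, h2⟩ := hsd2 b hb
      refine ⟨by rw [← hb1]; exact h1, fun x hx => ?_⟩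
      have h3 : κ b x • y = κ' x • y := by
        rw [← hy' x hx, ← hb3, Matrix.mulVec_mulVec, hκ b x hx, Matrix.smul_mulVec]
      have h4 : κ b x = κ' x := by
        rw [← sub_eq_zero, ← sub_smul] at h3
        exact sub_eq_zero.mp ((smul_eq_zero.mp h3).resolve_right hy0)
      rw [← h4]
      exact h2 x hx
    rw [← hb3, Matrix.mulVec_mulVec, hY0 b hb, Matrix.zero_mulVec]
  -- isolated weights
  have hiso : ∀ a, D.st a ≠ a → IsolatedM ρ K γ (D.z a) (κ a) := fun a ha =>
    h.2.1 (D.z a) (κ a) (hWne a) (fun h1 => ha (hsd1 a h1))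
  -- `g` is a scalar on every weight space
  have hge : ∀ a, g * D.ε a = D.z a • D.ε a := by
    intro a
    by_cases ha : D.st a = a
    · have hzz : D.z a * D.z a = μ' := by
        have h1 := D.zdual a
        rw [ha] at h1
        exact h1
      have hadjg : adj J' g * g = μ' • (1 : Matrix I I K) := by
        unfold adj
        rw [mul_assoc, mul_assoc, ← mul_assoc gᵀ, hgJ, mul_smul_comm,
          Matrix.nonsing_inv_mul J' (isUnit_iff_ne_zero.2 L.det)]
      obtain ⟨G, hGdef⟩ : ∃ G : Matrix I I K, G = μ'⁻¹ • adj J' g := ⟨_, rfl⟩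
      have hGg : G * g = 1 := by
        rw [hGdef, smul_mul_assoc, hadjg, smul_smul, inv_mul_cancel₀ hμ, one_smul]
      have hgG : g * G = 1 := mul_eq_one_comm.mp hGg
      have hadjg' : adj J' g = μ' • G := by
        rw [hGdef, smul_smul, mul_inv_cancel₀ hμ, one_smul]
      have hadjsmul : ∀ (s : K) (e : Matrix I I K), adj J' (s • e) = s • adj J' e := by
        intro s e
        unfold adj
        rw [Matrix.transpose_smul, mul_smul_comm, smul_mul_assoc]
      have hadjG : adj J' G = μ'⁻¹ • g := by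
        rw [hGdef, hadjsmul, adj_adj L.det L.alt]
      have hεG : G * D.ε a = D.ε a * G := by
        calc G * D.ε a = G * D.ε a * (g * G) := by rw [hgG, mul_one]
          _ = G * (D.ε a * g) * G := by simp only [mul_assoc]
          _ = G * (g * D.ε a) * G := by rw [hεg a]
          _ = (G * g) * D.ε a * G := by simp only [mul_assoc]
          _ = D.ε a * G := by rw [hGg, one_mul]
      set Y := (D.z a)⁻¹ • (g * D.ε a) - D.z a • (G * D.ε a) with hYdef
      have hGC : Cm (cK ρ K) G := by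
        intro b hb
        calc G * b = G * b * (g * G) := by rw [hgG, mul_one]
          _ = G * (b * g) * G := by simp only [mul_assoc]
          _ = G * (g * b) * G := by rw [hCg b hb]
          _ = (G * g) * b * G := by simp only [mul_assoc]
          _ = b * G := by rw [hGg, one_mul]
      have hYC : Cm (cK ρ K) Y := by
        intro b hb
        rw [hYdef, sub_mul, mul_sub, smul_mul_assoc, smul_mul_assoc, mul_smul_comm,
          mul_smul_comm, mul_assoc, mul_assoc, hεC a b hb, ← mul_assoc, ← mul_assoc,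
          hCg b hb, hGC b hb, mul_assoc, mul_assoc]
      have hYs : Yᵀ * J' + J' * Y = 0 := by
        rw [adj_skew L.det]
        have h1 : adj J' Y = adj J' ((D.z a)⁻¹ • (g * D.ε a)) - adj J' (D.z a • (G * D.ε a)) := by
          rw [hYdef]
          unfold adj
          rw [Matrix.transpose_sub, mul_sub, sub_mul]
        have h2 : (D.z a)⁻¹ * μ' = D.z a := by
          have h3 : (D.z a)⁻¹ * (D.z a * D.z a) = D.z a := by
            rw [← mul_assoc, inv_mul_cancel₀ (hz0 a), one_mul]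
          exact (congrArg (fun t => (D.z a)⁻¹ * t) hzz.symm).trans h3
        have h4 : D.z a * μ'⁻¹ = (D.z a)⁻¹ := by
          have h3 : D.z a * (D.z a * D.z a)⁻¹ = (D.z a)⁻¹ := by
            rw [mul_inv, ← mul_assoc, mul_inv_cancel₀ (hz0 a), one_mul]
          exact (congrArg (fun t => D.z a * t⁻¹) hzz.symm).trans h3
        have e1 : adj J' ((D.z a)⁻¹ • (g * D.ε a)) = D.z a • (G * D.ε a) := by
          rw [hadjsmul, adj_mul L.det, D.star, ha, hadjg', mul_smul_comm, smul_smul, h2, hεG]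
        have e2 : adj J' (D.z a • (G * D.ε a)) = (D.z a)⁻¹ • (g * D.ε a) := by
          rw [hadjsmul, adj_mul L.det, D.star, ha, hadjG, mul_smul_comm, smul_smul, h4, hεg a]
        rw [h1, e1, e2, hYdef, neg_sub]
      have hY0 : Y = 0 := by
        refine star Y hYs hYC fun b hb => ?_
        have hab : a ≠ b := by
          rintro rfl
          exact hb ha
        rw [hYdef, sub_mul, smul_mul_assoc, smul_mul_assoc, mul_assoc, mul_assoc, D.orth a b hab,
          mul_zero, mul_zero, smul_zero, smul_zero, sub_zero]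
      refine gd_sq D a (hz0 a) ?_
      have h1 : (D.z a)⁻¹ • (g * D.ε a) = D.z a • (G * D.ε a) := sub_eq_zero.mp hY0
      have h2 : g * D.ε a = (D.z a * D.z a) • (G * D.ε a) := by
        rw [← smul_smul, ← h1, smul_smul, mul_inv_cancel₀ (hz0 a), one_smul]
      rw [h2, mul_smul_comm, ← mul_assoc, hgG, one_mul]
    · have h1 := (isoI_of ρ hsemi hfull K γ hcz hcc1 D a (κ a) (hκ a) (hiso a ha)).2
      obtain ⟨s, hs⟩ := gd_scalar (cK ρ K) (D.idem a) (D.ne a) hCg (hεg a) (hεC a) h1
      exact gd_val D a hs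
  refine ⟨h.1, gd_ss D hge, ?_⟩
  intro b0 hb0 hb0i X hX
  have hb0ε : ∀ s : {a : Fin D.n // D.st a ≠ a}, b0 * D.ε s.1 = 0 := by
    rintro ⟨a, ha⟩
    refine Matrix.ext_iff_mulVec.mpr fun u => ?_
    rw [← Matrix.mulVec_mulVec, Matrix.zero_mulVec]
    exact hb0i (D.z a) (κ a) (hiso a ha) _ (hmem a u)
  obtain ⟨q, hqC, hq0, hqa, hqc, hqb⟩ := exists_cenq L
    (fun s : {a : Fin D.n // D.st a ≠ a} => D.ε s.1)
    (fun s => ⟨D.st s.1, fun h1 => s.2 (by rw [D.st_st] at h1; exact h1.symm)⟩)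
    (fun s => D.star s.1) (fun s => hεC s.1)
  have hXC : Cm (cK ρ K) (X.map (algebraMap F K)) := fun b hb => cmK ρ hX.2 K hb
  have hXs : adj J' (X.map (algebraMap F K)) = -(X.map (algebraMap F K)) :=
    (adj_skew L.det _).mp (skewK ρ hX.1 K)
  have hZ : X.map (algebraMap F K) * q = 0 := by
    refine star _ ?_ ?_ fun a ha => ?_
    · rw [adj_skew L.det, adj_mul L.det, hqa, hXs, mul_neg, ← hXC q hqC]
    · intro b hb
      rw [mul_assoc, ← hqc b hb, ← mul_assoc, hXC b hb, mul_assoc]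
    · rw [mul_assoc, hq0 ⟨a, ha⟩, mul_zero]
  rw [← hqb b0 hb0 hb0ε, mul_assoc, ← hXC q hqC, hZ, mul_zero]

end Pool.Agent.Lib.MP_640417_ag.Uni
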