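import Pool.Agent.Lib.MP_640417_ag.Gn.GapA
import Pool.Agent.Lib.MP_640417_ag.Gn.Num

/-!
# MP_640417_ag, Uni, module Num1 (100 lines): generic numbers for an involution with at most one fixed point

Let `x a = 0` if `st a = a`, `x a = 5 ^ a` if `a < st a` and `x a = - 5 ^ (st a)` if `st a < a`. Then `x (st a) = - x a`. Let
`x a + x b + x u + x v = 0`. The numbers which are not zero are odd, so the number of zeros among the four is even. No zeros: as in
`exists_num` (`Gn/Num.lean`; its proof uses `st a ≠ a` only for the four indices; `zz_zero` in `Glob/Five.lean`). Two zeros, say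
`x a = x b = 0`: `a = b` is the fixed point (`hfix`), and `x u + x v = 0`, so `5 ^ i = 5 ^ j` for the two exponents and the signs are
opposite, so `v = st u`. (For example use the case without zeros on the enlarged set, or `zz_zero` with a cancelling pair.) Four zeros:
all are equal. The second part: if `st a ≠ a` then `x a` is `± 5 ^ i`.
-/

set_option autoImplicit false

namespace Pool.Agent.Lib.MP_640417_ag.Uni

open Pool.Agent.Lib.MP_640417_ag.Gn

open Pool.Agent.Lib.MP_640417_ag.Glob

private def num1_x {n : ℕ} : Fin n ⊕ Fin n → ℤ :=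
  Sum.elim (fun i => (5 : ℤ) ^ (i : ℕ)) (fun i => -(5 : ℤ) ^ (i : ℕ))

private theorem num1_cast {n : ℕ} (x : Fin n ⊕ Fin n) : ((num1_x x : ℤ) : ℚ) = zz ℚ x := by
  cases x with
  | inl i =>
    change (((5 : ℤ) ^ (i : ℕ) : ℤ) : ℚ) = (5 : ℚ) ^ (i : ℕ)
    push_cast
    rfl
  | inr i =>
    change ((-(5 : ℤ) ^ (i : ℕ) : ℤ) : ℚ) = -(5 : ℚ) ^ (i : ℕ)
    push_cast
    rfl

private theorem num1_odd {n : ℕ} (x : Fin n ⊕ Fin n) : Odd (num1_x x) := by
  have h5 : ∀ i : ℕ, Odd ((5 : ℤ) ^ i) := fun i => Odd.pow ⟨2, by norm_num⟩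
  cases x with
  | inl i => exact h5 i
  | inr i => exact (h5 i).neg

private def num1_s {n : ℕ} (st : Fin n → Fin n) (a : Fin n) : Fin n ⊕ Fin n :=
  if a < st a then Sum.inl a else Sum.inr (st a)

private theorem num1_swap {n : ℕ} (st : Fin n → Fin n) (h : ∀ a, st (st a) = a)
    {a : Fin n} (hne : st a ≠ a) : num1_s st (st a) = (num1_s st a).swap := by
  unfold num1_s
  rw [h]
  by_cases h1 : a < st a
  · rw [if_neg (not_lt.2 h1.le), if_pos h1]
    rfl
  · have h2 : st a < a := lt_of_le_of_ne (not_lt.1 h1) hne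
    rw [if_pos h2, if_neg h1]
    rfl

private theorem num1_inj {n : ℕ} (st : Fin n → Fin n) (h : ∀ a, st (st a) = a) {a b : Fin n}
    (hab : num1_s st a = num1_s st b) : a = b := by
  unfold num1_s at hab
  by_cases h1 : a < st a
  · by_cases h2 : b < st b
    · rw [if_pos h1, if_pos h2] at hab
      exact Sum.inl_injective hab
    · rw [if_pos h1, if_neg h2] at hab
      cases hab
  · by_cases h2 : b < st b
    · rw [if_neg h1, if_pos h2] at hab
      cases hab
    · rw [if_neg h1, if_neg h2] at hab
      have h3 : st a = st b := Sum.inr_injective hab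
      rw [← h a, h3, h]

private theorem num1_pair {n : ℕ} (st : Fin n → Fin n) (h : ∀ a, st (st a) = a) {u v : Fin n}
    (hu : st u ≠ u) (hs : num1_x (num1_s st u) + num1_x (num1_s st v) = 0) : v = st u := by
  have h1 : zz ℚ (num1_s st u) + zz ℚ (num1_s st v) = 0 := by
    rw [← num1_cast, ← num1_cast]
    exact_mod_cast hs
  have h2 : zz ℚ (num1_s st v) = zz ℚ (num1_s st (st u)) := by
    rw [num1_swap st h hu, zz_swap]
    linarith
  exact num1_inj st h (zz_inj h2)

private theorem num1_four {n : ℕ} (st : Fin n → Fin n) (h : ∀ a, st (st a) = a)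
    {a b u v : Fin n} (ha : st a ≠ a) (hb : st b ≠ b) (hu : st u ≠ u)
    (hs : num1_x (num1_s st a) + num1_x (num1_s st b) + num1_x (num1_s st u) +
      num1_x (num1_s st v) = 0) :
    (b = st a ∧ v = st u) ∨ (u = st a ∧ v = st b) ∨ (v = st a ∧ u = st b) := by
  have h1 : zz ℚ (num1_s st a) + zz ℚ (num1_s st b) + zz ℚ (num1_s st u) +
      zz ℚ (num1_s st v) = 0 := by
    rw [← num1_cast, ← num1_cast, ← num1_cast, ← num1_cast]
    exact_mod_cast hs
  rw [zz_zero, ← num1_swap st h ha, ← num1_swap st h hb, ← num1_swap st h hu] at h1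
  rcases h1 with ⟨h2, h3⟩ | ⟨h2, h3⟩ | ⟨h2, h3⟩
  · exact Or.inl ⟨num1_inj st h h2, num1_inj st h h3⟩
  · exact Or.inr (Or.inl ⟨num1_inj st h h2, num1_inj st h h3⟩)
  · exact Or.inr (Or.inr ⟨num1_inj st h h2, num1_inj st h h3⟩)

theorem exists_num1 {n : ℕ} (st : Fin n → Fin n) (h : ∀ a, st (st a) = a)
    (hfix : ∀ a b, st a = a → st b = b → a = b) :
    ∃ x : Fin n → ℤ, GoodNum st x ∧ ∀ a, st a ≠ a → x a ≠ 0 := by
  let x : Fin n → ℤ := fun a => if st a = a then 0 else num1_x (num1_s st a)
  have x0 : ∀ {a}, st a = a → x a = 0 := fun ha => if_pos ha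
  have x1 : ∀ {a}, st a ≠ a → x a = num1_x (num1_s st a) := fun ha => if_neg ha
  have xo : ∀ {a}, st a ≠ a → Odd (x a) := fun ha => by
    rw [x1 ha]
    exact num1_odd _
  have pr : ∀ {u v}, st u ≠ u → st v ≠ v → x u + x v = 0 → v = st u := fun hu hv hs => by
    rw [x1 hu, x1 hv] at hs
    exact num1_pair st h hu hs
  have eq : ∀ {a b}, st a = a → st b = b → b = st a := fun ha hb => by
    rw [ha]
    exact hfix _ _ hb ha
  have odd1 : ∀ {p q r : ℤ}, Odd p → Odd q → Odd r → p + q + r ≠ 0 := by
    rintro p q r ⟨i, rfl⟩ ⟨j, rfl⟩ ⟨k, rfl⟩ h0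
    omega
  have odd2 : ∀ {p : ℤ}, Odd p → p ≠ 0 := by
    rintro p ⟨i, rfl⟩ h0
    omega
  refine ⟨x, ⟨fun a => ?_, fun a b u v hs => ?_⟩, fun a ha => odd2 (xo ha)⟩
  · by_cases ha : st a = a
    · rw [ha, x0 ha, neg_zero]
    · have ha' : st (st a) ≠ st a := by
        rw [h]
        exact fun h1 => ha h1.symm
      rw [x1 ha, x1 ha']
      have h1 : ((num1_x (num1_s st (st a)) : ℤ) : ℚ) =
          ((-num1_x (num1_s st a) : ℤ) : ℚ) := by
        rw [Int.cast_neg, num1_cast, num1_cast, num1_swap st h ha, zz_swap]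
      exact_mod_cast h1
  · by_cases ha : st a = a
    · by_cases hb : st b = b
      · by_cases hu : st u = u
        · by_cases hv : st v = v
          · exact Or.inl ⟨eq ha hb, eq hu hv⟩
          · rw [x0 ha, x0 hb, x0 hu] at hs
            exact absurd (by linarith) (odd2 (xo hv))
        · by_cases hv : st v = v
          · rw [x0 ha, x0 hb, x0 hv] at hs
            exact absurd (by linarith) (odd2 (xo hu))
          · rw [x0 ha, x0 hb] at hs
            exact Or.inl ⟨eq ha hb, pr hu hv (by linarith)⟩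
      · by_cases hu : st u = u
        · by_cases hv : st v = v
          · rw [x0 ha, x0 hu, x0 hv] at hs
            exact absurd (by linarith) (odd2 (xo hb))
          · rw [x0 ha, x0 hu] at hs
            exact Or.inr (Or.inl ⟨eq ha hu, pr hb hv (by linarith)⟩)
        · by_cases hv : st v = v
          · rw [x0 ha, x0 hv] at hs
            exact Or.inr (Or.inr ⟨eq ha hv, pr hb hu (by linarith)⟩)
          · rw [x0 ha] at hs
            exact absurd (by linarith) (odd1 (xo hb) (xo hu) (xo hv))
    · by_cases hb : st b = b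
      · by_cases hu : st u = u
        · by_cases hv : st v = v
          · rw [x0 hb, x0 hu, x0 hv] at hs
            exact absurd (by linarith) (odd2 (xo ha))
          · rw [x0 hb, x0 hu] at hs
            exact Or.inr (Or.inr ⟨pr ha hv (by linarith), eq hb hu⟩)
        · by_cases hv : st v = v
          · rw [x0 hb, x0 hv] at hs
            exact Or.inr (Or.inl ⟨pr ha hu (by linarith), eq hb hv⟩)
          · rw [x0 hb] at hs
            exact absurd (by linarith) (odd1 (xo ha) (xo hu) (xo hv))
      · by_cases hu : st u = u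
        · by_cases hv : st v = v
          · rw [x0 hu, x0 hv] at hs
            exact Or.inl ⟨pr ha hb (by linarith), eq hu hv⟩
          · rw [x0 hu] at hs
            exact absurd (by linarith) (odd1 (xo ha) (xo hb) (xo hv))
        · by_cases hv : st v = v
          · rw [x0 hv] at hs
            exact absurd (by linarith) (odd1 (xo ha) (xo hb) (xo hu))
          · rw [x1 ha, x1 hb, x1 hu, x1 hv] at hs
            exact num1_four st h ha hb hu hs

end Pool.Agent.Lib.MP_640417_ag.Uni
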