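import Pool.Agent.Lib.MP_640417_ag.Uni.Defs
import Pool.Agent.Lib.MP_640417_ag.Uni.Num1
import Pool.Agent.Lib.MP_640417_ag.Uni.GapZ
import Pool.Agent.Lib.MP_640417_ag.Gn.GoodK

/-!
# MP_640417_ag, Uni, module GoodU (350 lines): few relations imply `GoodM1`

The model is `good_gen` in `Gn/GoodK.lean` (copy its proof and its private lemmas). `g = (M γ).map`, `c' = c.map`, `μ'` the image of `μ γ`,
`D : WDec J' g c' μ'`.
* `hfix`: if `st a = a` then `z a ^ 2 = μ'`, `k a = 0` (`D.zdual`, `D.kdual`), and `z a` is an eigenvalue (`D.nil`, `D.ne`: the generalized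
  eigenspace for `z a` is not zero, it contains the range of `ε a`). If also `st b = b`, then `z b = z a` or `z b = - z a`; the second
  is excluded by `hsg`; so `a = b` by `D.inj`.
* `exists_num1` (`Uni/Num1.lean`) gives `x` with `GoodNum D.st x` and `x a ≠ 0` for `st a ≠ a`.
* `hG` as in `good_gen`. `gap_irr1` and `gap_rel1` (`Gn/GapI.lean`, `Gn/GapR.lean`) take `GoodNum D.st x` in the place of `hne`; `gap_irr1` is
  only for `a` with `st a ≠ a`.
* `dim (G1 c' g μ') ≤ m`: `nul_le` for `k0.map K` and `g^2 - μ'` (as for `hG`; the generalized kernel of `g^2 - μ'` is the generalized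
  eigenspace of `g^2` for `μ'`).
* second part of `GoodM1`: let `WtM z κ ≠ ⊥`, not self-dual. As in `key` of `good_gen`, a nonzero vector `v` of it gives `a` with
  `z a = z`, `k a = κ c`, `ε a v = v`. `st a ≠ a`: otherwise `z ^ 2 = μ'` and `κ c = k a = 0`, so `c' v = 0`, so for every `y ∈ Zm`,
  `y = R c` (`hcc`): `y.map v = R.map c' v = 0 = κ y v`, so `κ y = 0`, and `(z, κ)` is its own dual. So `gap_irr1` applies, and the
  rest is as in `good_gen`. In the relation the other three weights `(z₂, κ₂)`, .. can be self-dual: for them one has an index `b` with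
  `z b = z₂`, `k b = κ₂ c` and a nonzero vector `w` of the weight space with `ε b w = w`, that is enough: `gap_rel1` gives `b = st a` (or
  the same for one of the other two indices), so `st b = a ≠ b` is not self-dual and `key` applies to it.
* third part: let `X` be in the span and zero on all weight spaces which are not self-dual. `X` is skew and commutes with `C = cK ρ K`
  (linear; `InCK` is spanned by the images of the commutant, `inCK_span`). For `st a ≠ a` the range of `ε a` is contained in the weight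
  space `(z a, κ)`, where `y.map` acts on the range of `ε a` as the scalar `κ y` for `y ∈ Zm` (the range is irreducible under `C` and
  `y.map` commutes with `C` and `ε a`: take an eigenvector in the range; its eigenspace in the range is stable under `C`). This weight is
  not self-dual (otherwise `z a ^ 2 = μ'`, `2 k a = 2 κ c = 0` and `st a = a` by `D.inj`). So `X ε a = 0`, and `gap_zero`
  (`Uni/GapZ.lean`) gives `X = 0`.
-/

set_option autoImplicit false

namespace Pool.Agent.Lib.MP_640417_ag.Uni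

open Matrix Module Pool.Agent.Lib.MP_640417_ag.Glob Pool.Agent.Lib.MP_640417_ag.Ctl
  Pool.Agent.Lib.MP_640417_ag.Ty Pool.Agent.Lib.MP_640417_ag.Gn

/-! ### Linear algebra -/

section alg

variable {K : Type} [Field K] {I : Type} [Fintype I] [DecidableEq I]

/-- the generalized kernel of `u⁻¹ A - 1` -/
private theorem gu_scale {κ : Type} [Fintype κ] [DecidableEq κ] (A : Matrix κ κ K) (u : K)
    (hu : u ≠ 0) : Module.End.maxGenEigenspace (Matrix.toLin' (u⁻¹ • A - 1)) 0 =
      Module.End.maxGenEigenspace (Matrix.toLin' A) u := by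
  ext t
  rw [gapA_mem, gapA_mem]
  have h1 : u⁻¹ • A - 1 - (0 : K) • (1 : Matrix κ κ K) = u⁻¹ • (A - u • 1) := by
    rw [zero_smul, sub_zero, smul_sub, smul_smul, inv_mul_cancel₀ hu, one_smul]
  constructor
  · rintro ⟨k, hk⟩
    refine ⟨k, ?_⟩
    rw [h1, smul_pow, Matrix.smul_mulVec] at hk
    exact (smul_eq_zero.mp hk).resolve_left (pow_ne_zero k (inv_ne_zero hu))
  · rintro ⟨k, hk⟩
    refine ⟨k, ?_⟩
    rw [h1, smul_pow, Matrix.smul_mulVec, hk, smul_zero]

/-- the generalized kernel of `A - u` -/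
private theorem gu_sub {κ : Type} [Fintype κ] [DecidableEq κ] (A : Matrix κ κ K) (u : K) :
    Module.End.maxGenEigenspace (Matrix.toLin' (A - u • (1 : Matrix κ κ K))) 0 =
      Module.End.maxGenEigenspace (Matrix.toLin' A) u := by
  ext t
  rw [gapA_mem, gapA_mem, zero_smul, sub_zero]

/-- a power of `g - z a` is zero on the range of `ε a` -/
private theorem gu_nil {J g c : Matrix I I K} {μ : K} (D : WDec J g c μ) (a : Fin D.n) :
    ∃ m : ℕ, (g - D.z a • (1 : Matrix I I K)) ^ m * D.ε a = 0 := by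
  obtain ⟨m, hm⟩ := D.nil a
  have hεg : D.ε a * g = g * D.ε a := (D.comm a g rfl D.cg.symm).symm
  have hcomm : Commute (g - D.z a • (1 : Matrix I I K)) (D.ε a) := by
    show _ * _ = _ * _
    rw [sub_mul, mul_sub, hεg, smul_mul_assoc, mul_smul_comm, one_mul, mul_one]
  have hεp : ∀ m : ℕ, D.ε a ^ m * D.ε a = D.ε a := by
    intro m
    induction m with
    | zero => rw [pow_zero, one_mul]
    | succ m ih => rw [pow_succ, mul_assoc, D.idem, ih]
  refine ⟨m, ?_⟩
  have h1 : ((g - D.z a • (1 : Matrix I I K)) * D.ε a) ^ m * D.ε a = 0 := by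
    rw [hm, zero_mul]
  rw [hcomm.mul_pow, mul_assoc, hεp] at h1
  exact h1

/-- `ε a` is not zero, so there is a nonzero vector in its range -/
private theorem gu_vec {J g c : Matrix I I K} {μ : K} (D : WDec J g c μ) (a : Fin D.n) :
    ∃ w : I → K, w ≠ 0 ∧ D.ε a *ᵥ w = w := by
  by_contra hcon
  apply D.ne a
  refine Matrix.ext_iff_mulVec.mpr fun w => ?_
  rw [Matrix.zero_mulVec]
  by_contra hw
  exact hcon ⟨D.ε a *ᵥ w, hw, by rw [Matrix.mulVec_mulVec, D.idem]⟩

/-- `z a` is an eigenvalue of `g` -/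
private theorem gu_ev {J g c : Matrix I I K} {μ : K} (D : WDec J g c μ) (a : Fin D.n) :
    Module.End.maxGenEigenspace (Matrix.toLin' g) (D.z a) ≠ ⊥ := by
  obtain ⟨w, hw, hw'⟩ := gu_vec D a
  obtain ⟨m, hm⟩ := gu_nil D a
  intro h
  apply hw
  have h1 : w ∈ Module.End.maxGenEigenspace (Matrix.toLin' g) (D.z a) := by
    rw [gapA_mem]
    refine ⟨m, ?_⟩
    rw [← hw', Matrix.mulVec_mulVec, hm, Matrix.zero_mulVec]
  rw [h] at h1
  exact h1

/-- self-dual weights -/
private theorem gu_self [CharZero K] {J g c : Matrix I I K} {μ : K} (D : WDec J g c μ)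
    (a : Fin D.n) (ha : D.st a = a) : D.z a * D.z a = μ ∧ D.k a = 0 := by
  have hz := D.zdual a
  have hk := D.kdual a
  rw [ha] at hz hk
  refine ⟨hz, ?_⟩
  have h2 : (2 : K) * D.k a = 0 := by rw [two_mul]; exact hk
  exact (mul_eq_zero.mp h2).resolve_left two_ne_zero

/-- if `z a` and `k a` are their own duals then `st a = a` -/
private theorem gu_st [CharZero K] {J g c : Matrix I I K} {μ : K} (D : WDec J g c μ)
    (hμ : μ ≠ 0) (a : Fin D.n) (hz : D.z a * D.z a = μ) (hk : D.k a + D.k a = 0) :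
    D.st a = a := by
  apply D.inj
  · have h3 := D.zdual a
    have hz0 : D.z a ≠ 0 := by
      intro h4
      rw [h4, zero_mul] at h3
      exact hμ h3.symm
    refine mul_left_cancel₀ hz0 ?_
    rw [h3, hz]
  · have h3 := D.kdual a
    have h5 : D.k a = 0 := by
      have h6 : (2 : K) * D.k a = 0 := by rw [two_mul]; exact hk
      exact (mul_eq_zero.mp h6).resolve_left two_ne_zero
    rw [h5, zero_add] at h3
    rw [h3, h5]

/-- a matrix which commutes with `C` and `ε a` is a scalar on the range of `ε a` if this is irreducible -/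
private theorem gu_scalar [IsAlgClosed K] (C : Subalgebra K (Matrix I I K)) {e y : Matrix I I K}
    (hee : e * e = e) (hy : Cm C y) (hye : y * e = e * y) (he : Cm C e) {w : I → K} (hw : w ≠ 0)
    (hew : e *ᵥ w = w)
    (hirr : ∀ E : Submodule K (I → K), (∀ b ∈ C, ∀ v ∈ E, b *ᵥ v ∈ E) →
      (∀ v ∈ E, e *ᵥ v = v) → E = ⊥ ∨ E = LinearMap.range (Matrix.toLin' e)) :
    ∃ s : K, y * e = s • e := by
  classical
  set W := LinearMap.range (Matrix.toLin' e) with hW
  have hmemW : ∀ v, v ∈ W ↔ e *ᵥ v = v := by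
    intro v
    constructor
    · rintro ⟨u, rfl⟩
      rw [Matrix.toLin'_apply, Matrix.mulVec_mulVec, hee]
    · intro h
      exact ⟨v, by rw [Matrix.toLin'_apply, h]⟩
  have hyW : ∀ v ∈ W, Matrix.toLin' y v ∈ W := by
    intro v hv
    rw [hmemW] at hv ⊢
    rw [Matrix.toLin'_apply, Matrix.mulVec_mulVec, ← hye, ← Matrix.mulVec_mulVec, hv]
  have : Nontrivial W := ⟨⟨w, (hmemW w).2 hew⟩, 0, by
    intro h
    exact hw (congrArg Subtype.val h)⟩
  obtain ⟨s, hs⟩ := Module.End.exists_eigenvalue ((Matrix.toLin' y).restrict hyW)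
  obtain ⟨v, hv⟩ := hs.exists_hasEigenvector
  have hv1 := hv.apply_eq_smul
  have hv2 : y *ᵥ (v : I → K) = s • (v : I → K) := by
    have h1 := congrArg Subtype.val hv1
    rw [LinearMap.coe_restrict_apply, Matrix.toLin'_apply] at h1
    exact h1
  have hv0 : (v : I → K) ≠ 0 := fun h => hv.2 (Subtype.ext h)
  refine ⟨s, ?_⟩
  let E : Submodule K (I → K) := W ⊓ Module.End.eigenspace (Matrix.toLin' y) s
  have hE1 : ∀ b ∈ C, ∀ v ∈ E, b *ᵥ v ∈ E := by
    rintro b hb v ⟨hv1, hv2⟩
    refine ⟨?_, ?_⟩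
    · rw [SetLike.mem_coe, hmemW] at hv1 ⊢
      rw [Matrix.mulVec_mulVec, he b hb, ← Matrix.mulVec_mulVec, hv1]
    · rw [SetLike.mem_coe, Module.End.mem_eigenspace_iff, Matrix.toLin'_apply] at hv2 ⊢
      rw [Matrix.mulVec_mulVec, hy b hb, ← Matrix.mulVec_mulVec, hv2, Matrix.mulVec_smul]
  have hE2 : ∀ v ∈ E, e *ᵥ v = v := fun v hv => (hmemW v).1 hv.1
  have hvE : (v : I → K) ∈ E := by
    refine ⟨v.2, ?_⟩
    rw [SetLike.mem_coe, Module.End.mem_eigenspace_iff, Matrix.toLin'_apply]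
    exact hv2
  rcases hirr E hE1 hE2 with h | h
  · exfalso
    rw [h] at hvE
    exact hv0 hvE
  · refine Matrix.ext_iff_mulVec.mpr fun u => ?_
    have h1 : e *ᵥ u ∈ E := by
      rw [h]
      exact ⟨u, Matrix.toLin'_apply _ _⟩
    have h2 := h1.2
    rw [SetLike.mem_coe, Module.End.mem_eigenspace_iff, Matrix.toLin'_apply] at h2
    rw [← Matrix.mulVec_mulVec, h2, Matrix.smul_mulVec]

end alg

variable {F : Type} [NontriviallyNormedField F] [IsUltrametricDist F] [CompleteSpace F] [CharZero F]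
  {I : Type} [Fintype I] [DecidableEq I] {Γ : Type} [Group Γ] [TopologicalSpace Γ]
  [IsTopologicalGroup Γ] [CompactSpace Γ] (ρ : MRep Γ F I) (K : Type) [Field K] [Algebra F K]
  [IsAlgClosed K]

omit [IsUltrametricDist F] [CompleteSpace F] [IsTopologicalGroup Γ] [CompactSpace Γ]
  [IsAlgClosed K] in
/-- elements of the commutant over `K` commute with `Zm` -/
private theorem gu_zm {x : Matrix I I F} (hx : x ∈ Zm ρ) {b : Matrix I I K} (hb : InCK ρ K b) :
    x.map (algebraMap F K) * b = b * x.map (algebraMap F K) := by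
  have h1 := inCK_span ρ K hb
  clear hb
  induction h1 using Submodule.span_induction with
  | mem y hy =>
    obtain ⟨d, hd, rfl⟩ := hy
    rw [← Matrix.map_mul, hx.2.1 d hd, Matrix.map_mul]
  | zero => rw [mul_zero, zero_mul]
  | add y z _ _ hy hz => rw [mul_add, add_mul, hy, hz]
  | smul r y _ hy => rw [mul_smul_comm, smul_mul_assoc, hy]

omit [IsUltrametricDist F] [CompleteSpace F] [IsTopologicalGroup Γ] [CompactSpace Γ]
  [IsAlgClosed K] in
/-- weight spaces are stable under the commutant over `K` -/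
private theorem gu_stable (hfull : Full0 ρ) {γ : Γ} {z : K} {κ : Matrix I I F → K}
    {b : Matrix I I K} (hb : InCK ρ K b) {v : I → K} (hv : v ∈ WtM ρ K γ z κ) :
    b *ᵥ v ∈ WtM ρ K γ z κ := by
  refine ⟨?_, ?_⟩
  · have h1 := hv.1
    rw [SetLike.mem_coe, gapA_mem] at h1 ⊢
    obtain ⟨k, hk⟩ := h1
    refine ⟨k, ?_⟩
    have h2 : Commute ((ρ.M γ).map (algebraMap F K) - z • 1) b := by
      show _ * _ = _ * _
      rw [sub_mul, mul_sub, inCK_full ρ K hfull hb γ, smul_mul_assoc, mul_smul_comm, one_mul,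
        mul_one]
    have h3 := (h2.pow_left k).eq
    rw [Matrix.mulVec_mulVec, h3, ← Matrix.mulVec_mulVec, hk, Matrix.mulVec_zero]
  · have h1 := hv.2
    rw [SetLike.mem_coe, Submodule.mem_iInf] at h1 ⊢
    intro x
    have h2 := h1 x
    rw [Module.End.mem_eigenspace_iff, Matrix.toLin'_apply] at h2 ⊢
    rw [Matrix.mulVec_mulVec, gu_zm ρ K x.2 hb, ← Matrix.mulVec_mulVec, h2, Matrix.mulVec_smul]

theorem good_gen1 (hsemi : ρ.Semi) (hfull : Full0 ρ) {c : Matrix I I F} (hc : c ∈ Zm ρ)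
    (hcc : ∀ z ∈ Zm ρ, ∃ R, z = R * c) (kb : KB (d4 c)) (k0 : KB c) (r m : ℕ)
    (hr : ∀ X : Matrix I I K, Xᵀ * ρ.J.map (algebraMap F K) + ρ.J.map (algebraMap F K) * X = 0 →
        (∀ b, InCK ρ K b → X * b = b * X) →
          r ≤ Module.finrank K (NN (c.map (algebraMap F K)) X))
    (hm : ∀ X : Matrix I I K, Xᵀ * ρ.J.map (algebraMap F K) + ρ.J.map (algebraMap F K) * X = 0 →
        (∀ b, InCK ρ K b → X * b = b * X) →
          m ≤ Module.finrank K (N1 (c.map (algebraMap F K)) X))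
    (hnd : ∀ X : Matrix I I K, Xᵀ * ρ.J.map (algebraMap F K) + ρ.J.map (algebraMap F K) * X = 0 →
        (∀ b, InCK ρ K b → X * b = b * X) →
        (∀ Y : Matrix I I K, Yᵀ * ρ.J.map (algebraMap F K) + ρ.J.map (algebraMap F K) * Y = 0 →
          (∀ b, InCK ρ K b → Y * b = b * Y) → Matrix.trace (X * Y) = 0) → X = 0) (γ : Γ)
    (hγ1 : (kb.π * ((((ρ.μ γ : F)) ^ (2 * 1))⁻¹ • k4 ((ρ.M γ) ^ 1) - 1) *
      kb.ι).charpoly.coeff r ≠ 0)
    (hγ2 : (k0.π * ((ρ.M γ) ^ 2 - (ρ.μ γ : F) • (1 : Matrix I I F)) *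
      k0.ι).charpoly.coeff m ≠ 0)
    (hsg : ∀ z : K, z ^ 2 = algebraMap F K (ρ.μ γ : F) →
      Module.End.maxGenEigenspace (Matrix.toLin' ((ρ.M γ).map (algebraMap F K))) z ≠ ⊥ →
      Module.End.maxGenEigenspace (Matrix.toLin' ((ρ.M γ).map (algebraMap F K))) (-z) ≠ ⊥ → False)
    (hγ : ∀ N : ℕ, 0 < N → ∀ z₁ z₂ z₃ z₄ : K,
      Module.End.maxGenEigenspace (Matrix.toLin' ((ρ.M γ).map (algebraMap F K))) z₁ ≠ ⊥ →
      Module.End.maxGenEigenspace (Matrix.toLin' ((ρ.M γ).map (algebraMap F K))) z₂ ≠ ⊥ →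
      Module.End.maxGenEigenspace (Matrix.toLin' ((ρ.M γ).map (algebraMap F K))) z₃ ≠ ⊥ →
      Module.End.maxGenEigenspace (Matrix.toLin' ((ρ.M γ).map (algebraMap F K))) z₄ ≠ ⊥ →
      (z₁ * z₂ * z₃ * z₄) ^ N = (algebraMap F K (ρ.μ γ : F)) ^ (2 * N) →
      ∃ N' : ℕ, 0 < N' ∧ (z₁ * z₂ * z₃ * z₄) ^ N' = (algebraMap F K (ρ.μ γ : F)) ^ (2 * N') ∧
        (kb.π * ((((ρ.μ γ : F)) ^ (2 * N'))⁻¹ • k4 ((ρ.M γ) ^ N') - 1) *
          kb.ι).charpoly.coeff r ≠ 0) : GoodM1 ρ K γ := by
  classical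
  have hchar : CharZero K := charZero_of_injective_algebraMap (algebraMap F K).injective
  set φ := algebraMap F K with hφ
  set g := (ρ.M γ).map φ with hg
  set J' := ρ.J.map φ with hJ'
  set μ' := φ (ρ.μ γ : F) with hμ'
  set c' := c.map φ with hc'
  have hJdet : J'.det ≠ 0 := by
    have e : J'.det = φ ρ.J.det := by
      rw [hJ', RingHom.map_det, RingHom.mapMatrix_apply]
    rw [e]
    exact (map_ne_zero φ).mpr ρ.det
  have hJs : J'ᵀ = -J' := by
    have h1 := congrArg (fun X : Matrix I I F => X.map φ) (J_skew ρ)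
    rw [Matrix.transpose_map] at h1
    rw [hJ', h1]
    ext i j
    simp
  have hμ0 : μ' ≠ 0 := (map_ne_zero φ).mpr (ρ.μ γ).ne_zero
  have hgJ : gᵀ * J' * g = μ' • J' := by
    have h1 := congrArg (fun X : Matrix I I F => X.map φ) (ρ.eq γ)
    rw [Matrix.map_mul, Matrix.map_mul, Matrix.transpose_map] at h1
    rw [hg, hJ', h1]
    ext i j
    simp [hμ']
  have hskew0 : ∀ x ∈ spJ ρ.J, (x.map φ)ᵀ * J' + J' * x.map φ = 0 := by
    intro x hx
    have h1 := congrArg (fun X : Matrix I I F => X.map φ) (mem_spJ.mp hx)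
    rw [Matrix.map_add _ (fun a b => map_add φ a b), Matrix.map_mul, Matrix.map_mul,
      Matrix.transpose_map, Matrix.map_zero _ (map_zero φ)] at h1
    exact h1
  have hskew : ∀ x ∈ Zm ρ, (x.map φ)ᵀ * J' + J' * x.map φ = 0 := fun x hx => hskew0 x hx.2.2
  have hzg : ∀ x ∈ Zm ρ, x.map φ * g = g * x.map φ := by
    intro x hx
    rw [hg, ← Matrix.map_mul, ← hfull x hx.1 γ, Matrix.map_mul]
  have hzc : ∀ x ∈ Zm ρ, x.map φ * c' = c' * x.map φ := by
    intro x hx
    rw [hc', ← Matrix.map_mul, hx.2.1 c hc.1, Matrix.map_mul]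
  have hcg : c' * g = g * c' := hzg c hc
  obtain ⟨D⟩ := exists_wdec J' g c' μ' hJdet hJs hμ0 hgJ (hskew c hc) hcg (zm_ss ρ hsemi hc K)
  -- at most one self-dual weight
  have hfix : ∀ a b, D.st a = a → D.st b = b → a = b := by
    intro a b ha hb
    obtain ⟨ha1, ha2⟩ := gu_self D a ha
    obtain ⟨hb1, hb2⟩ := gu_self D b hb
    have h1 : D.z b * D.z b = D.z a * D.z a := by rw [ha1, hb1]
    rcases mul_self_eq_mul_self_iff.mp h1 with h2 | h2
    · exact D.inj a b h2.symm (ha2.trans hb2.symm)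
    · exfalso
      refine hsg (D.z a) ?_ (gu_ev D a) ?_
      · rw [sq]
        exact ha1
      · rw [← h2]
        exact gu_ev D b
  obtain ⟨x, hx, hx0⟩ := exists_num1 D.st D.st_st hfix
  -- few relations
  have hG : ∀ N : ℕ, 0 < N →
      (kb.π * ((((ρ.μ γ : F)) ^ (2 * N))⁻¹ • k4 ((ρ.M γ) ^ N) - 1) * kb.ι).charpoly.coeff r ≠ 0 →
      Module.finrank K (GG c' g μ' N) ≤ r := by
    intro N hN hNc
    have hB : (((ρ.μ γ : F) ^ (2 * N))⁻¹ • k4 ((ρ.M γ) ^ N) - 1).map φ =
        (μ' ^ (2 * N))⁻¹ • k4 (g ^ N) - 1 := by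
      have h2 : ((ρ.M γ) ^ N).map φ = g ^ N := by
        have := map_pow (RingHom.mapMatrix φ : Matrix I I F →+* Matrix I I K) (ρ.M γ) N
        exact this
      rw [Matrix.map_sub _ (fun a b => map_sub φ a b), Matrix.map_one _ (map_zero φ) (map_one φ)]
      congr 1
      have h3 := k4_map φ ((ρ.M γ) ^ N)
      rw [h2] at h3
      rw [← h3]
      ext i j
      rw [Matrix.map_apply, Matrix.smul_apply, Matrix.smul_apply, Matrix.map_apply, smul_eq_mul,
        smul_eq_mul, map_mul, map_inv₀, map_pow]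
    have hd : (d4 c).map φ = d4 c' := d4_map φ c
    have hcN : Commute c' (g ^ N) := Commute.pow_right hcg N
    have hcomm : (d4 c).map φ * ((μ' ^ (2 * N))⁻¹ • k4 (g ^ N) - 1) =
        ((μ' ^ (2 * N))⁻¹ • k4 (g ^ N) - 1) * (d4 c).map φ := by
      rw [hd, mul_sub, sub_mul, mul_smul_comm, smul_mul_assoc, d4_k4_comm hcN.eq, mul_one, one_mul]
    have h1 := nul_le (kb.map K) hcomm (m := r) (by
      have h4 : kb.π.map φ * ((μ' ^ (2 * N))⁻¹ • k4 (g ^ N) - 1) * kb.ι.map φ =
          (kb.π * (((ρ.μ γ : F) ^ (2 * N))⁻¹ • k4 ((ρ.M γ) ^ N) - 1) * kb.ι).map φ := by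
        rw [Matrix.map_mul, Matrix.map_mul, hB]
      show (kb.π.map φ * ((μ' ^ (2 * N))⁻¹ • k4 (g ^ N) - 1) * kb.ι.map φ).charpoly.coeff r ≠ 0
      rw [h4, Matrix.charpoly_map, Polynomial.coeff_map]
      exact (map_ne_zero φ).mpr hNc)
    rw [hd, gu_scale _ _ (pow_ne_zero _ hμ0)] at h1
    exact h1
  have hG1 : Module.finrank K (G1 c' g μ') ≤ m := by
    have h1 : k0.π.map φ * (g ^ 2 - μ' • (1 : Matrix I I K)) * k0.ι.map φ =
        (k0.π * ((ρ.M γ) ^ 2 - (ρ.μ γ : F) • (1 : Matrix I I F)) * k0.ι).map φ := by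
      rw [Matrix.map_mul, Matrix.map_mul, Matrix.map_sub _ (fun a b => map_sub φ a b)]
      have h2 : ((ρ.M γ) ^ 2).map φ = g ^ 2 := by
        rw [sq, sq, Matrix.map_mul]
      have h3 : ((ρ.μ γ : F) • (1 : Matrix I I F)).map φ = μ' • (1 : Matrix I I K) := by
        ext i j
        rw [Matrix.map_apply, Matrix.smul_apply, Matrix.smul_apply, smul_eq_mul, smul_eq_mul,
          map_mul]
        congr 1
        by_cases hij : i = j
        · rw [hij, Matrix.one_apply_eq, Matrix.one_apply_eq, map_one]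
        · rw [Matrix.one_apply_ne hij, Matrix.one_apply_ne hij, map_zero]
      rw [h2, h3]
    have hcomm : c' * (g ^ 2 - μ' • (1 : Matrix I I K)) =
        (g ^ 2 - μ' • (1 : Matrix I I K)) * c' := by
      have h5 : Commute c' g := hcg
      have h2 : c' * g ^ 2 = g ^ 2 * c' := h5.pow_right 2
      rw [mul_sub, sub_mul, h2, mul_smul_comm, smul_mul_assoc, mul_one, one_mul]
    have h2 := nul_le (k0.map K) hcomm (m := m) (by
      show (k0.π.map φ * (g ^ 2 - μ' • (1 : Matrix I I K)) * k0.ι.map φ).charpoly.coeff m ≠ 0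
      rw [h1, Matrix.charpoly_map, Polynomial.coeff_map]
      exact (map_ne_zero φ).mpr hγ2)
    rw [gu_sub] at h2
    exact h2
  -- the algebra
  have hC : Rg (cK ρ K) := by
    intro b hb
    obtain ⟨x, hx, h⟩ := reg_K ρ K hsemi hb
    exact ⟨x, hx, h⟩
  have hCa : ∀ b ∈ cK ρ K, adj J' b ∈ cK ρ K := fun b hb => inCK_adj ρ K hb
  have hCg : Cm (cK ρ K) g := fun b hb => inCK_full ρ K hfull hb γ
  have hCz : ∀ y ∈ Zm ρ, Cm (cK ρ K) (y.map φ) := fun y hy b hb => gu_zm ρ K hy hb
  have hCc : Cm (cK ρ K) c' := hCz c hc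
  have hr' : ∀ X, Xᵀ * J' + J' * X = 0 → Cm (cK ρ K) X → r ≤ Module.finrank K (NN c' X) :=
    fun X h1 h2 => hr X h1 h2
  have hm' : ∀ X, Xᵀ * J' + J' * X = 0 → Cm (cK ρ K) X → m ≤ Module.finrank K (N1 c' X) :=
    fun X h1 h2 => hm X h1 h2
  have hirr := fun a (ha : D.st a ≠ a) =>
    gap_irr1 hJdet hJs D hx (cK ρ K) hC hCa hCg hCc hcg r hr' 1 (hG 1 one_pos hγ1) a ha
  have hεC : ∀ a, Cm (cK ρ K) (D.ε a) := by
    intro a b hb
    exact (D.comm a b (hCg b hb).symm (hCc b hb).symm).symm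
  -- weight spaces
  have hcv : ∀ z κ v, v ∈ WtM ρ K γ z κ → ∀ y ∈ Zm ρ, y.map φ *ᵥ v = κ y • v := by
    intro z κ v hv y hy
    have h1 := hv.2
    rw [SetLike.mem_coe, Submodule.mem_iInf] at h1
    have h2 := h1 ⟨y, hy⟩
    rw [Module.End.mem_eigenspace_iff, Matrix.toLin'_apply] at h2
    exact h2
  have key0 : ∀ z κ, WtM ρ K γ z κ ≠ ⊥ → ∃ a, D.z a = z ∧ D.k a = κ c ∧
      (∀ v ∈ WtM ρ K γ z κ, D.ε a *ᵥ v = v) := by
    intro z κ hW
    have hmem : ∀ v ∈ WtM ρ K γ z κ, v ≠ 0 → ∃ a, D.z a = z ∧ D.k a = κ c ∧ D.ε a *ᵥ v = v := by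
      intro v hv hv0
      exact D.mem hv0 hv.1 (hcv z κ v hv c hc)
    obtain ⟨v0, hv0, hv0'⟩ := Submodule.exists_mem_ne_zero_of_ne_bot hW
    obtain ⟨a, ha1, ha2, ha3⟩ := hmem v0 hv0 hv0'
    refine ⟨a, ha1, ha2, fun v hv => ?_⟩
    by_cases h0 : v = 0
    · rw [h0, Matrix.mulVec_zero]
    · obtain ⟨b, hb1, hb2, hb3⟩ := hmem v hv h0
      have : a = b := D.inj a b (ha1.trans hb1.symm) (ha2.trans hb2.symm)
      rw [this]
      exact hb3
  have hrng : ∀ z κ a, WtM ρ K γ z κ ≠ ⊥ → (∀ v ∈ WtM ρ K γ z κ, D.ε a *ᵥ v = v) → D.st a ≠ a →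
      WtM ρ K γ z κ = LinearMap.range (Matrix.toLin' (D.ε a)) := by
    intro z κ a hW hall ha
    rcases hirr a ha (WtM ρ K γ z κ) (fun b hb v hv => gu_stable ρ K hfull hb hv) hall with h | h
    · exact absurd h hW
    · exact h
  refine ⟨fun b hb => hfull b hb γ, fun z κ hW hnD => ?_, fun X hX hX0 => ?_⟩
  · obtain ⟨a, ha1, ha2, ha3⟩ := key0 z κ hW
    have hst : D.st a ≠ a := by
      intro ha
      obtain ⟨h1, h2⟩ := gu_self D a ha
      apply hnD
      refine ⟨?_, fun y hy => ?_⟩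
      · rw [← ha1]
        exact h1
      · obtain ⟨v0, hv0, hv0'⟩ := Submodule.exists_mem_ne_zero_of_ne_bot hW
        obtain ⟨R, hR⟩ := hcc y hy
        have h3 : c' *ᵥ v0 = 0 := by
          rw [hcv z κ v0 hv0 c hc, ← ha2, h2, zero_smul]
        have h4 : y.map φ *ᵥ v0 = 0 := by
          rw [hR, Matrix.map_mul, ← Matrix.mulVec_mulVec, h3, Matrix.mulVec_zero]
        rw [hcv z κ v0 hv0 y hy] at h4
        have h5 : κ y = 0 := (smul_eq_zero.mp h4).resolve_right hv0'
        rw [h5, add_zero]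
    have ha4 := hrng z κ a hW ha3 hst
    refine ⟨hnD, ?_, ?_⟩
    · intro N hN hNs
      rw [ha4]
      refine hirr a hst N ?_ (fun v hv => ha3 v (hN hv))
      intro b hb v hv
      have h1 := inCK_span ρ K hb
      clear hb
      induction h1 using Submodule.span_induction with
      | mem y hy =>
        obtain ⟨d, hd, rfl⟩ := hy
        exact hNs d hd v hv
      | zero =>
        rw [Matrix.zero_mulVec]
        exact Submodule.zero_mem _
      | add y z _ _ hy hz =>
        rw [Matrix.add_mulVec]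
        exact Submodule.add_mem _ hy hz
      | smul t y _ hy =>
        rw [Matrix.smul_mulVec]
        exact Submodule.smul_mem _ t hy
    · intro z₂ κ₂ z₃ κ₃ z₄ κ₄ hW2 hW3 hW4 hsum N hN hrel
      obtain ⟨b, hb1, hb2, hb3⟩ := key0 z₂ κ₂ hW2
      obtain ⟨u, hu1, hu2, hu3⟩ := key0 z₃ κ₃ hW3
      obtain ⟨v, hv1, hv2, hv3⟩ := key0 z₄ κ₄ hW4
      -- the action of central elements
      have hact : ∀ z κ (a : Fin D.n), WtM ρ K γ z κ = LinearMap.range (Matrix.toLin' (D.ε a)) →
          ∀ x ∈ Zm ρ, x.map φ * D.ε a = κ x • D.ε a := by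
        intro z κ a h x hx
        refine Matrix.ext_iff_mulVec.mpr fun w => ?_
        have h1 : D.ε a *ᵥ w ∈ WtM ρ K γ z κ := by
          rw [h]
          exact ⟨w, Matrix.toLin'_apply _ _⟩
        rw [← Matrix.mulVec_mulVec, Matrix.smul_mulVec]
        exact hcv z κ _ h1 x hx
      have hdual : ∀ z' κ' (b : Fin D.n), D.z b = z' → WtM ρ K γ z' κ' ≠ ⊥ →
          (∀ v ∈ WtM ρ K γ z' κ', D.ε b *ᵥ v = v) → b = D.st a →
          DualM ρ K γ z κ z' κ' := by
        intro z' κ' b hb1 hWb hb3 hba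
        have hstb : D.st b ≠ b := by
          intro h1
          rw [hba, D.st_st] at h1
          exact hst h1.symm
        have hb4 := hrng z' κ' b hWb hb3 hstb
        refine ⟨?_, ?_⟩
        · rw [← ha1, ← hb1, hba]
          exact D.zdual a
        · intro x hx
          have h1 := hact z κ a ha4 x hx
          have h2 := hact z' κ' b hb4 x hx
          have h3 := congrArg (adj J') h1
          have h4 : adj J' (κ x • D.ε a) = κ x • adj J' (D.ε a) := by
            unfold adj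
            rw [Matrix.transpose_smul, mul_smul_comm, smul_mul_assoc]
          rw [adj_mul hJdet, (adj_skew hJdet _).mp (hskew x hx), h4, D.star, ← hba, mul_neg] at h3
          have h5 : x.map φ * D.ε b = D.ε b * x.map φ :=
            D.comm b _ (hzg x hx) (hzc x hx)
          rw [← h5, h2] at h3
          have h6 : (κ x + κ' x) • D.ε b = 0 := by
            rw [add_smul, ← h3, neg_add_cancel]
          exact (smul_eq_zero.mp h6).resolve_right (D.ne b)
      have hkk : D.k a + D.k b + D.k u + D.k v = 0 := by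
        rw [ha2, hb2, hu2, hv2]
        exact hsum c hc
      have hzz : (D.z a * D.z b * D.z u * D.z v) ^ N = μ' ^ (2 * N) := by
        rw [ha1, hb1, hu1, hv1]
        exact hrel
      obtain ⟨N', hN', hzz', hcoef⟩ := hγ N hN (D.z a) (D.z b) (D.z u) (D.z v)
        (gu_ev D a) (gu_ev D b) (gu_ev D u) (gu_ev D v) hzz
      rcases gap_rel1 hJdet D hx (cK ρ K) hCg hCc hcg r hr' N' (hG N' hN' hcoef) a b u v hkk hzz'
        with
        ⟨h, -⟩ | ⟨h, -⟩ | ⟨h, -⟩
      · exact Or.inl (hdual z₂ κ₂ b hb1 hW2 hb3 h)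
      · exact Or.inr (Or.inl (hdual z₃ κ₃ u hu1 hW3 hu3 h))
      · exact Or.inr (Or.inr (hdual z₄ κ₄ v hv1 hW4 hv3 h))
  · -- an element which vanishes on all weight spaces which are not self-dual
    have hXs : Xᵀ * J' + J' * X = 0 := by
      clear hX0
      induction hX using Submodule.span_induction with
      | mem y hy =>
        obtain ⟨Y, hY, rfl⟩ := hy
        exact hskew0 Y hY.1
      | zero => rw [Matrix.transpose_zero, zero_mul, mul_zero, add_zero]
      | add y z _ _ hy hz =>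
        have e : (y + z)ᵀ * J' + J' * (y + z) = (yᵀ * J' + J' * y) + (zᵀ * J' + J' * z) := by
          rw [Matrix.transpose_add, add_mul, mul_add]
          abel
        rw [e, hy, hz, add_zero]
      | smul t y _ hy =>
        have e : (t • y)ᵀ * J' + J' * (t • y) = t • (yᵀ * J' + J' * y) := by
          rw [Matrix.transpose_smul, smul_mul_assoc, mul_smul_comm, smul_add]
        rw [e, hy, smul_zero]
    have hXd : ∀ d, ρ.InC d → X * d.map φ = d.map φ * X := by
      intro d hd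
      clear hX0 hXs
      induction hX using Submodule.span_induction with
      | mem y hy =>
        obtain ⟨Y, hY, rfl⟩ := hy
        rw [← Matrix.map_mul, hY.2 d hd, Matrix.map_mul]
      | zero => rw [zero_mul, mul_zero]
      | add y z _ _ hy hz => rw [add_mul, mul_add, hy, hz]
      | smul t y _ hy => rw [smul_mul_assoc, mul_smul_comm, hy]
    have hXC : Cm (cK ρ K) X := by
      intro b hb
      have h1 := inCK_span ρ K hb
      clear hb
      induction h1 using Submodule.span_induction with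
      | mem y hy =>
        obtain ⟨d, hd, rfl⟩ := hy
        exact hXd d hd
      | zero => rw [zero_mul, mul_zero]
      | add y z _ _ hy hz => rw [add_mul, mul_add, hy, hz]
      | smul t y _ hy => rw [smul_mul_assoc, mul_smul_comm, hy]
    refine gap_zero hJdet hJs D hx hx0 hfix (cK ρ K) hCg hCc hcg m hm' hG1
      (fun X h1 h2 h3 => hnd X h1 h2 (fun Y h4 h5 => h3 Y h4 h5)) hXs hXC (fun a ha => ?_)
    obtain ⟨w, hw, hw'⟩ := gu_vec D a
    have hsc : ∀ y ∈ Zm ρ, ∃ s : K, y.map φ * D.ε a = s • D.ε a := fun y hy =>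
      gu_scalar (cK ρ K) (D.idem a) (hCz y hy) (D.comm a _ (hzg y hy) (hzc y hy)) (hεC a) hw hw'
        (fun E hE1 hE2 => hirr a ha E hE1 hE2)
    choose! κ hκ using hsc
    have hmemW : ∀ u, D.ε a *ᵥ u ∈ WtM ρ K γ (D.z a) κ := by
      intro u
      refine ⟨?_, ?_⟩
      · rw [SetLike.mem_coe, gapA_mem]
        obtain ⟨k, hk⟩ := gu_nil D a
        exact ⟨k, by rw [Matrix.mulVec_mulVec, hk, Matrix.zero_mulVec]⟩
      · rw [SetLike.mem_coe, Submodule.mem_iInf]
        intro y
        rw [Module.End.mem_eigenspace_iff, Matrix.toLin'_apply, Matrix.mulVec_mulVec,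
          hκ y.1 y.2, Matrix.smul_mulVec]
    have hnD : ¬ DualM ρ K γ (D.z a) κ (D.z a) κ := by
      rintro ⟨h1, h2⟩
      apply ha
      refine gu_st D hμ0 a h1 ?_
      have h3 : κ c = D.k a := by
        have h4 := hκ c hc
        rw [← hc', D.ceig] at h4
        have h5 : (D.k a - κ c) • D.ε a = 0 := by
          rw [sub_smul, h4, sub_self]
        have h6 := (smul_eq_zero.mp h5).resolve_right (D.ne a)
        exact (sub_eq_zero.mp h6).symm
      rw [← h3]
      exact h2 c hc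
    refine Matrix.ext_iff_mulVec.mpr fun u => ?_
    rw [← Matrix.mulVec_mulVec, Matrix.zero_mulVec]
    exact hX0 (D.z a) κ hnD _ (hmemW u)

end Pool.Agent.Lib.MP_640417_ag.Uni
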