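import Pool.Agent.Lib.MP_640417_ag.Uni.Defs
import Pool.Agent.Lib.MP_640417_ag.Dt.MainD

/-!
# MP_640417_ag, Uni, module MainD1: one detecting element gives the whole Lefschetz Lie algebra
-/

set_option autoImplicit false

namespace Pool.Agent.Lib.MP_640417_ag.Uni

open Matrix Pool.Agent.Lib.MP_640417_ag.Glob Pool.Agent.Lib.MP_640417_ag.Ctl
  Pool.Agent.Lib.MP_640417_ag.Ty Pool.Agent.Lib.MP_640417_ag.Gn Pool.Agent.Lib.MP_640417_ag.Dt

variable {F : Type} [NontriviallyNormedField F] {I : Type} [Fintype I] [DecidableEq I]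
  {Γ : Type} [Group Γ] [TopologicalSpace Γ]
  [IsUltrametricDist F] [CompleteSpace F] [CharZero F] [IsTopologicalGroup Γ]
  [CompactSpace Γ] (ρ : MRep Γ F I)

theorem mem_of_detects1 (l : ℕ) (hl : ‖(l : F)‖ < 1) (hl0 : (l : F) ≠ 0) (hsemi : ρ.Semi)
    (hfull : Full0 ρ) (K : Type) [Field K] [Algebra F K] [IsAlgClosed K] {γ : Γ}
    (h : DetectsM1 ρ K γ) {X : Matrix I I F} (hX : X ∈ spJ ρ.J)
    (hc : ∀ b, ρ.InC b → X * b = b * X) : X ∈ Hp ρ l := by
  have : CharZero K := charZero_of_injective_algebraMap (algebraMap F K).injective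
  obtain ⟨c, hcz, hcc⟩ := exists_cc ρ hsemi
  have L := ldata ρ l hl hl0 hsemi K
  have hcg : c.map (algebraMap F K) * (ρ.M γ).map (algebraMap F K) =
      (ρ.M γ).map (algebraMap F K) * c.map (algebraMap F K) := by
    rw [← Matrix.map_mul, ← Matrix.map_mul, h.1 c hcz.1]
  obtain ⟨D⟩ := exists_wdec (ρ.J.map (algebraMap F K)) ((ρ.M γ).map (algebraMap F K))
    (c.map (algebraMap F K)) (algebraMap F K (ρ.μ γ : F)) L.det L.alt
    ((map_ne_zero _).mpr (Units.ne_zero _)) (gK ρ γ K) (skewK ρ hcz.2.2 K) hcg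
    (zm_ss ρ hsemi hcz K)
  have hcc1 : ∀ z ∈ Zm ρ, ∃ R, d4 z = R * d4 c := fun z hz => (hcc z hz).1
  have hE : ∀ a : {a : Fin D.n // IsoI D a ∧ Irr (cK ρ K) (D.ε a)},
      EData (ρ.J.map (algebraMap F K)) (HpK ρ l K) (cK ρ K) (D.ε a.1) := by
    rintro ⟨a, ha1, ha2⟩
    have hcm : Cm (cK ρ K) (D.ε a) := fun b hb =>
      (D.comm a b (inCK_full ρ K hfull hb γ).symm (cmK ρ hcz.2.1 K hb).symm).symm
    exact {
      idem := D.idem a
      cm := hcm
      dual := by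
        rw [D.star]
        exact D.orth _ _ (Ne.symm ha1.1)
      dual' := by
        rw [D.star]
        exact D.orth _ _ ha1.1
      irr := ha2
      irr' := irr_adj L.det L.alt L.adjC (D.idem a) hcm ha2
      mem := by
        rw [D.star]
        exact delta_mem ρ l hl hl0 hsemi hfull K γ h.2.1 hcz D a ha1 }
  have h1 := all_skew1 L (fun a : {a : Fin D.n // IsoI D a ∧ Irr (cK ρ K) (D.ε a)} => D.ε a.1) hE
    (X := X.map (algebraMap F K)) (fun b hb => cmK ρ hc K hb)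
    (fun b hb hb0 => h.2.2 b hb (fun z κ hiso y hy =>
      iso_kill ρ hsemi hfull K γ hcz hcc1 D b (fun a ha1 ha2 => hb0 ⟨a, ha1, ha2⟩) z κ hiso y hy)
      X ⟨hX, hc⟩) ((adj_skew L.det _).mp (skewK ρ hX K))
  exact hpk_mem ρ l hl hl0 K h1

end Pool.Agent.Lib.MP_640417_ag.Uni
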