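import Pool.Agent.Lib.MP_640417_ag.Gn.NearN

/-!
# MP_640417_ag, Uni, module NearM (200 lines): an element near a good tangent vector

A simpler form of `near_goodN` in `Gn/NearN.lean` (copy the parts which are needed). `A = lim (l^k)⁻¹ (M (γ k) - 1)`. Put
`X = A - t/2`, `c_k = l^k`, `g = M (γ k)`, `μ = μ (γ k)`.
* `c_k⁻¹ (g^2 - μ) → 2 X` (`lim_sq` in `Gn/NearN.lean`), so `c_k⁻¹ π0 (g^2 - μ) ι0 → 2 π0 X ι0`, and the coefficient of degree `m` of the
  characteristic polynomial is continuous (`coeff_cont`, `Glob/Cont.lean`) and not zero at the limit (`coeff_smul_zero` for the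
  factor `2`); so it is not zero for `c_k⁻¹ π0 (g^2 - μ) ι0` for large `k`, and by `coeff_smul_zero` for `π0 (g^2 - μ) ι0`.
* `c_k⁻¹ ((μ^2)⁻¹ k4 g - 1) → d4 X` (`lim_E` in `Glob/Lim.lean` with `N = 1`, or `lim_pow`, `lim_k4`, `lim_mult`, `lim_inv_sq`), and the
  same argument with the coefficient of degree `r`.
So `Few1` holds for all large `k`. If `I` is empty: the matrices of the kernels have size zero (`kb_empty`), everything is constant.
-/

set_option autoImplicit false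

namespace Pool.Agent.Lib.MP_640417_ag.Uni

open Filter Topology Matrix Pool.Agent.Lib.MP_640417_ag.Glob Pool.Agent.Lib.MP_640417_ag.Gn

variable {F : Type} [NontriviallyNormedField F] [IsUltrametricDist F] [CompleteSpace F] [CharZero F]
  {I : Type} [Fintype I] [DecidableEq I] {Γ : Type} [Group Γ] [TopologicalSpace Γ]
  (ρ : MRep Γ F I)

/-- few relations between four eigenvalues on the kernel of `d4 c`, and few self-dual weights on the kernel of `c` -/
def Few1 {c : Matrix I I F} (kb : KB (d4 c)) (k0 : KB c) (r m : ℕ) (g : Matrix I I F) (μ : F) :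
    Prop :=
  (kb.π * ((μ ^ (2 * 1))⁻¹ • k4 (g ^ 1) - 1) * kb.ι).charpoly.coeff r ≠ 0 ∧
    (k0.π * (g ^ 2 - μ • (1 : Matrix I I F)) * k0.ι).charpoly.coeff m ≠ 0

private theorem kb_emptyM {κ : Type} [Fintype κ] [DecidableEq κ] [IsEmpty κ] {A : Matrix κ κ F}
    (k : KB A) : IsEmpty (Fin k.n) := by
  refine ⟨fun i => ?_⟩
  have h := congrFun (congrFun k.πι i) i
  rw [Matrix.mul_apply, Finset.univ_eq_empty, Finset.sum_empty, Matrix.one_apply_eq] at h
  exact zero_ne_one h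

private theorem lim_sqM [Nonempty I] (J : Matrix I I F) (hJ : J.det ≠ 0) (b : ℕ → Matrix I I F)
    (c m : ℕ → F) (hc : Tendsto c atTop (𝓝 0)) (hc0 : ∀ j, c j ≠ 0)
    (hb : ∀ j, (b j)ᵀ * J * b j = m j • J) (A : Matrix I I F) (t : F)
    (hA : Aᵀ * J + J * A = t • J)
    (h : Tendsto (fun j => (c j)⁻¹ • (b j - 1)) atTop (𝓝 A)) :
    Tendsto (fun j => (c j)⁻¹ • (b j ^ 2 - m j • (1 : Matrix I I F))) atTop
      (𝓝 ((2 : F) • (A - (t / 2) • (1 : Matrix I I F)))) := by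
  have h1 := lim_mult J hJ b c m hc hc0 hb A t hA h
  have h2 : Tendsto b atTop (𝓝 1) := by
    have h3 : Tendsto (fun j => c j • ((c j)⁻¹ • (b j - 1)) + 1) atTop
        (𝓝 ((0 : F) • A + 1)) := (hc.smul h).add_const 1
    rw [zero_smul, zero_add] at h3
    refine h3.congr fun j => ?_
    rw [smul_smul, mul_inv_cancel₀ (hc0 j), one_smul, sub_add_cancel]
  have h3 : Tendsto (fun j => ((c j)⁻¹ • (b j - 1)) * (b j + 1) -
      ((c j)⁻¹ * (m j - 1)) • (1 : Matrix I I F)) atTop (𝓝 (A * (1 + 1) - t • 1)) := by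
    refine Tendsto.sub (Tendsto.mul h (h2.add_const 1)) ?_
    exact h1.smul_const 1
  have h4 : A * (1 + 1) - t • (1 : Matrix I I F) = (2 : F) • (A - (t / 2) • 1) := by
    rw [smul_sub, smul_smul, mul_add, mul_one, two_smul]
    congr 2
    field_simp
  rw [h4] at h3
  refine h3.congr fun j => ?_
  have h5 : (b j - 1) * (b j + 1) = b j ^ 2 - 1 := by
    rw [sub_mul, mul_add, mul_one, one_mul, pow_two]
    abel
  rw [Matrix.smul_mul, h5, mul_smul, ← smul_sub]
  congr 1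
  rw [sub_smul, one_smul]
  abel

theorem near_exists (l : ℕ) [Fact l.Prime] (hl : ‖(l : F)‖ < 1) {c : Matrix I I F}
    (kb : KB (d4 c)) (k0 : KB c) (r m : ℕ) (A : Matrix I I F) (hAZ : A ∈ ρ.Zt l) (t : F)
    (hA : Aᵀ * ρ.J + ρ.J * A = t • ρ.J)
    (h1 : (kb.π * d4 (A - (t / 2) • (1 : Matrix I I F)) * kb.ι).charpoly.coeff r ≠ 0)
    (h2 : (k0.π * (A - (t / 2) • (1 : Matrix I I F)) * k0.ι).charpoly.coeff m ≠ 0) :
    ∃ γ, Few1 kb k0 r m (ρ.M γ) (ρ.μ γ : F) := by
  obtain ⟨γ, hγ⟩ := hAZ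
  rcases isEmpty_or_nonempty I with hI | hI
  · have i1 := kb_emptyM kb
    have i2 := kb_emptyM k0
    refine ⟨1, ?_, ?_⟩
    · have h3 : kb.π * ((((ρ.μ 1 : Fˣ) : F) ^ (2 * 1))⁻¹ • k4 (ρ.M 1 ^ 1) - 1) * kb.ι =
          kb.π * d4 (A - (t / 2) • (1 : Matrix I I F)) * kb.ι := by
        ext i
        exact i1.elim i
      rw [h3]
      exact h1
    · have h3 : k0.π * (ρ.M 1 ^ 2 - ((ρ.μ 1 : Fˣ) : F) • (1 : Matrix I I F)) * k0.ι =
          k0.π * (A - (t / 2) • (1 : Matrix I I F)) * k0.ι := by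
        ext i
        exact i2.elim i
      rw [h3]
      exact h2
  have hl0 : (l : F) ≠ 0 := Nat.cast_ne_zero.mpr (Fact.out (p := l.Prime)).ne_zero
  have hc : Tendsto (fun k => (l : F) ^ k) atTop (𝓝 0) :=
    tendsto_pow_atTop_nhds_zero_of_norm_lt_one hl
  have hc0 : ∀ k, (l : F) ^ k ≠ 0 := fun k => pow_ne_zero _ hl0
  have hsq := lim_sqM ρ.J ρ.det (fun k => ρ.M (γ k)) (fun k => (l : F) ^ k)
    (fun k => (ρ.μ (γ k) : F)) hc hc0 (fun k => ρ.eq _) A t hA hγ
  have hE := lim_E ρ.J ρ.det (fun k => ρ.M (γ k)) (fun k => (l : F) ^ k)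
    (fun k => (ρ.μ (γ k) : F)) hc hc0 (fun k => Units.ne_zero _) (fun k => ρ.eq _) A t hA hγ
  have hco : Continuous fun Y : Matrix (I × I × I × I) (I × I × I × I) F =>
      (kb.π * Y * kb.ι).charpoly.coeff r :=
    (coeff_cont (F := F) (κ := Fin kb.n) r).comp
      ((continuous_const.matrix_mul continuous_id).matrix_mul continuous_const)
  have hco' : Continuous fun Y : Matrix I I F => (k0.π * Y * k0.ι).charpoly.coeff m :=
    (coeff_cont (F := F) (κ := Fin k0.n) m).comp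
      ((continuous_const.matrix_mul continuous_id).matrix_mul continuous_const)
  have h2' : (k0.π * ((2 : F) • (A - (t / 2) • (1 : Matrix I I F))) * k0.ι).charpoly.coeff m ≠
      0 := by
    intro h3
    rw [Matrix.mul_smul, Matrix.smul_mul] at h3
    exact h2 (coeff_smul_zero m 2 two_ne_zero _ h3)
  have ev1 := ((hco.tendsto _).comp hE).eventually_ne h1
  have ev2 := ((hco'.tendsto _).comp hsq).eventually_ne h2'
  obtain ⟨k, hk1, hk2⟩ := (ev1.and ev2).exists
  refine ⟨γ k, fun h3 => hk1 ?_, fun h3 => hk2 ?_⟩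
  · change (kb.π * (((l : F) ^ k)⁻¹ • (((ρ.μ (γ k) : F) ^ 2)⁻¹ • k4 (ρ.M (γ k)) - 1)) *
      kb.ι).charpoly.coeff r = 0
    apply coeff_smul_zero r ((l : F) ^ k) (hc0 k)
    rw [Matrix.mul_smul, Matrix.smul_mul, smul_smul, mul_inv_cancel₀ (hc0 k), one_smul]
    rw [mul_one, pow_one (ρ.M (γ k))] at h3
    exact h3
  · change (k0.π * (((l : F) ^ k)⁻¹ • (ρ.M (γ k) ^ 2 - (ρ.μ (γ k) : F) • (1 : Matrix I I F))) *
      k0.ι).charpoly.coeff m = 0
    apply coeff_smul_zero m ((l : F) ^ k) (hc0 k)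
    rw [Matrix.mul_smul, Matrix.smul_mul, smul_smul, mul_inv_cancel₀ (hc0 k), one_smul]
    exact h3

end Pool.Agent.Lib.MP_640417_ag.Uni
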