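import Pool.Agent.Lib.MP_640417_ag.Gen4.Main
import Pool.Agent.Lib.MP_640417_ag.Uni.MainG1
import Pool.Agent.Lib.MP_640417_ag.Uni.MainD1
import Pool.Agent.Lib.MP_640417_ag.Uni.GoodD1
import Pool.Agent.Lib.MP_640417_ag.Uni.Coord1

/-!
# MP_640417_ag: the local-global principle with the zero-one law for every semisimple representation
-/

set_option autoImplicit false

namespace Pool.Agent.Lib.MP_640417_ag.Uni

open Matrix Module TensorProduct MeasureTheory Pool.Agent.Lib.MP_640417_ag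
  Pool.Agent.Lib.MP_640417_ag.Frob
  Pool.Agent.Lib.MP_640417_ag.Glob Pool.Agent.Lib.MP_640417_ag.Four
  Pool.Agent.Lib.MP_640417_ag.Ctl Pool.Agent.Lib.MP_640417_ag.Ty Pool.Agent.Lib.MP_640417_ag.Gn
  Pool.Agent.Lib.MP_640417_ag.Dt Pool.Agent.Lib.MP_640417_ag.Gen4

section

variable (l : ℕ) [Fact l.Prime] {Γ : Type} [Group Γ]
    [TopologicalSpace Γ] [IsTopologicalGroup Γ] [CompactSpace Γ] {V : Type} [AddCommGroup V]
    [Module ℚ_[l] V] [FiniteDimensional ℚ_[l] V] (ρ : H1Rep Γ ℚ_[l] V)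

/-- almost all elements are good, if everything in the commutant commutes with `Γ` and all matrices are close to the
identity -/
theorem ae_good1_small (hsemi : Semisimple ρ)
    (hfull : ∀ c, CommF ρ c → ∀ γ, c * ρ.T γ = ρ.T γ * c)
    (hsm : ∀ γ, Sm (‖(l : ℚ_[l])‖ ^ 2) (LinearMap.toMatrix (Module.finBasis ℚ_[l] V)
      (Module.finBasis ℚ_[l] V) (ρ.T γ) - 1))
    (h : LefCond ρ 4 2) [MeasurableSpace Γ] [BorelSpace Γ]
    (ν : Measure Γ) [ν.IsHaarMeasure] :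
    ∃ O : Set Γ, IsOpen O ∧ ν Oᶜ = 0 ∧ ∀ γ ∈ O, Good1 ρ γ := by
  obtain ⟨R, h1, h2, h3⟩ := exists_coord ρ (Module.finBasis ℚ_[l] V)
  have hs := coord_semi ρ _ R h1 hsemi
  obtain ⟨O, hO, hOn, hOg⟩ := exists_full1 R (AlgebraicClosure ℚ_[l]) l (norm_l l) hs
    (full_coord ρ _ R h1 hfull) (by
      intro X hX hXc
      obtain ⟨Y, rfl⟩ := (LinearMap.toMatrix (Module.finBasis ℚ_[l] V)
        (Module.finBasis ℚ_[l] V)).surjective X
      have hY := (lef_coord l ρ _ R h1 h3 Y).mpr ⟨hX, hXc⟩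
      exact mem_of_four l ρ _ R h1 h2 h3 hs Y hY.2 fun x hx hz => h x hx hz Y hY)
    (fun γ => by rw [h1]; exact hsm γ) ν
  exact ⟨O, hO, hOn, fun γ hγ => (good1_iff ρ _ R h1 h2 h3 γ).mpr (hOg γ hγ)⟩

/-- **Almost all elements near the identity are good.** -/
theorem ae_good1 (hsemi : Semisimple ρ) (h : LefCond ρ 4 2) [MeasurableSpace Γ] [BorelSpace Γ]
    (ν : Measure Γ) [ν.IsHaarMeasure] :
    ∃ (U : OpenSubgroup Γ) (O : Set Γ), IsOpen O ∧ O ⊆ U ∧ ν ((U : Set Γ) \ O) = 0 ∧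
      ∀ γ ∈ O, Good1 ρ γ := by
  obtain ⟨R, h1, h2, h3⟩ := exists_coord ρ (Module.finBasis ℚ_[l] V)
  obtain ⟨U0, hU0⟩ := exists_U0 ρ
  obtain ⟨U1, hU1⟩ := Glob.exists_U0 R (r := ‖(l : ℚ_[l])‖ ^ 2)
    (pow_pos (norm_pos_iff.mpr (l_ne l)) 2) (pow_lt_one₀ (norm_nonneg _) (norm_l l) two_ne_zero)
  let U : OpenSubgroup Γ := U0 ⊓ U1
  have := topGroup_U U
  have := compact_U U
  have hoe : Topology.IsOpenEmbedding (Subtype.val : U → Γ) := U.isOpen.isOpenEmbedding_subtypeVal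
  let ν' : Measure U := ν.comap Subtype.val
  have hν' : ν'.IsHaarMeasure :=
    Measure.IsHaarMeasure.comap (f := U.toSubgroup.subtype) (mH := inferInstance) ν hoe
  obtain ⟨O, hO, hOn, hOg⟩ := ae_good1_small l (res ρ U) (semi_res ρ U hsemi)
    (fun c hc γ => (hU0 γ.1).mp γ.2.1 c ((commF_res ρ U c).mp hc))
    (fun γ => by
      have h4 := (hU1 γ.1).mp γ.2.2
      rw [h1] at h4
      exact h4)
    ((lef_res l ρ U 4 2).mpr h) ν'
  refine ⟨U, (Subtype.val : U → Γ) '' O, U.isOpen.isOpenMap_subtype_val O hO, ?_, ?_, ?_⟩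
  · rintro _ ⟨γ, -, rfl⟩
    exact γ.2
  · have h4 : ((U : Set Γ) \ (Subtype.val : U → Γ) '' O) = (Subtype.val : U → Γ) '' Oᶜ := by
      ext γ
      constructor
      · rintro ⟨h5, h6⟩
        exact ⟨⟨γ, h5⟩, fun h7 => h6 ⟨_, h7, rfl⟩, rfl⟩
      · rintro ⟨γ', h5, rfl⟩
        refine ⟨γ'.2, ?_⟩
        rintro ⟨γ'', h6, h7⟩
        exact h5 (Subtype.val_injective h7 ▸ h6)
    rw [h4, ← hoe.measurableEmbedding.comap_apply]
    exact hOn
  · rintro _ ⟨γ, hγ, rfl⟩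
    exact (good1_res ρ U γ).mp (hOg γ hγ)

/-- one detecting element, if everything in the commutant commutes with `Γ` -/
theorem lef_of_detects1 (hsemi : Semisimple ρ)
    (hfull : ∀ c, CommF ρ c → ∀ γ, c * ρ.T γ = ρ.T γ * c) {γ : Γ} (h : Detects1 ρ γ) (n i : ℕ) :
    LefCond ρ n i := by
  intro x hx hz X hX
  obtain ⟨R, h1, h2, h3⟩ := exists_coord ρ (Module.finBasis ℚ_[l] V)
  have hs := coord_semi ρ _ R h1 hsemi
  have h5 := (lef_coord l ρ _ R h1 h3 X).mp hX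
  exact kills_of_mem l ρ _ R h1 h2 h3 X (mem_of_detects1 R l (norm_l l) (l_ne l) hs
    (full_coord ρ _ R h1 hfull) (AlgebraicClosure ℚ_[l])
    ((detects1_iff ρ _ R h1 h2 h3 γ).mp h) h5.1 h5.2) n i x hx hz

/-- good elements detect -/
theorem detects1_of_good1 (hsemi : Semisimple ρ) {γ : Γ} (h : Good1 ρ γ) : Detects1 ρ γ := by
  obtain ⟨U, hU⟩ := exists_U0 ρ
  have := topGroup_U U
  have := compact_U U
  have hγU : γ ∈ U := (hU γ).mpr h.1
  obtain ⟨R, h1, h2, h3⟩ := exists_coord (res ρ U) (Module.finBasis ℚ_[l] V)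
  have hs := coord_semi (res ρ U) _ R h1 (semi_res ρ U hsemi)
  have hf := full_coord (res ρ U) _ R h1
    (fun c hc γ' => (hU γ'.1).mp γ'.2 c ((commF_res ρ U c).mp hc))
  have h4 : Good1 (res ρ U) ⟨γ, hγU⟩ := (good1_res ρ U ⟨γ, hγU⟩).mpr h
  exact (detects1_res ρ U ⟨γ, hγU⟩).mp ((detects1_iff (res ρ U) _ R h1 h2 h3 _).mpr
    (detects_of_good1 R (AlgebraicClosure ℚ_[l]) l (norm_l l) (l_ne l) hs hf
      ((good1_iff (res ρ U) _ R h1 h2 h3 _).mp h4)))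

/-- **The local-global principle with the zero-one law, without any condition on the representation.** -/
theorem tfae_uni (hsemi : Semisimple ρ) [MeasurableSpace Γ] [BorelSpace Γ] (ν : Measure Γ)
    [ν.IsHaarMeasure] :
    List.TFAE [∀ n i, LefCond ρ n i, LefCond ρ 4 2,
      ∀ D : Set Γ, Dense D → ∃ γ ∈ D, Good1 ρ γ,
      ∃ (U : OpenSubgroup Γ) (O : Set Γ), IsOpen O ∧ O ⊆ U ∧ ν ((U : Set Γ) \ O) = 0 ∧
        ∀ γ ∈ O, Good1 ρ γ,
      ∃ γ, Detects1 ρ γ] := by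
  tfae_have 1 → 2 := fun h => h 4 2
  tfae_have 2 → 4 := fun h => ae_good1 l ρ hsemi h ν
  tfae_have 4 → 3 := by
    rintro ⟨U, O, hO, hOU, hν, hg⟩ D hD
    have hne : O.Nonempty := by
      by_contra h1
      rw [Set.not_nonempty_iff_eq_empty] at h1
      rw [h1, Set.sdiff_empty] at hν
      exact (U.isOpen.measure_pos ν ⟨1, U.one_mem⟩).ne' hν
    obtain ⟨γ, hγ, hγD⟩ := hD.inter_open_nonempty _ hO hne
    exact ⟨γ, hγD, hg γ hγ⟩
  tfae_have 3 → 5 := by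
    intro h
    obtain ⟨γ, -, hγ⟩ := h Set.univ dense_univ
    exact ⟨γ, detects1_of_good1 l ρ hsemi hγ⟩
  tfae_have 5 → 1 := by
    rintro ⟨γ, hγ⟩ n i
    obtain ⟨U, hU⟩ := exists_U0 ρ
    have := topGroup_U U
    have := compact_U U
    have hγU : γ ∈ U := (hU γ).mpr hγ.1
    exact (lef_res l ρ U n i).mp (lef_of_detects1 l (res ρ U) (semi_res ρ U hsemi)
      (fun c hc γ' => (hU γ'.1).mp γ'.2 c ((commF_res ρ U c).mp hc))
      (γ := ⟨γ, hγU⟩) ((detects1_res ρ U ⟨γ, hγU⟩).mpr hγ) n i)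
  tfae_finish

end

end Pool.Agent.Lib.MP_640417_ag.Uni
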